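import Mathlib

open Set

namespace Pool.Agent.R48.CR

universe u

variable {V : Type u}

/-- tournament -/
def Tour (D : V → V → Prop) : Prop := (∀ u, ¬ D u u) ∧ ∀ u v, u ≠ v → (D u v ↔ ¬ D v u)

/-- the cyclically consecutive pairs of a list -/
def arcs (l : List V) : List (V × V) := l.zip (l.rotate 1)

def IsDCycle (D : V → V → Prop) (l : List V) : Prop :=
  l.Nodup ∧ 3 ≤ l.length ∧ ∀ p ∈ arcs l, D p.1 p.2

def E (l : List V) : Set (Sym2 V) := {e | ∃ p ∈ arcs l, e = s(p.1, p.2)}

def fl (D : V → V → Prop) (F : Set (Sym2 V)) (u v : V) : Prop := u ≠ v ∧ (D u v ↔ s(u,v) ∉ F)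

lemma tour_fl {D : V → V → Prop} (h : Tour D) (F : Set (Sym2 V)) : Tour (fl D F) := by
  refine ⟨fun u hu => hu.1 rfl, fun a b hab => ?_⟩
  have h1 := h.2 a b hab
  have e : s(b, a) = s(a, b) := Sym2.eq_swap
  unfold fl
  rw [e]
  constructor
  · rintro ⟨_, h2⟩ ⟨_, h3⟩
    tauto
  · intro h2
    refine ⟨hab, ?_⟩
    by_contra h3
    exact h2 ⟨hab.symm, by tauto⟩

lemma fl_fl (D : V → V → Prop) (F G : Set (Sym2 V)) : fl (fl D F) G = fl D (symmDiff F G) := by
  funext a b
  simp only [fl, Set.mem_symmDiff, eq_iff_iff]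
  by_cases h : a = b
  · simp [h]
  · tauto

lemma fl_empty {D : V → V → Prop} (h : ∀ u, ¬ D u u) : fl D ∅ = D := by
  funext a b
  simp only [fl, Set.mem_empty_iff_false, not_false_eq_true, iff_true, eq_iff_iff]
  constructor
  · exact fun h => h.2
  · intro h1
    refine ⟨?_, h1⟩
    rintro rfl
    exact h a h1

def par : List (List V) → Set (Sym2 V)
  | [] => ∅
  | t :: T => symmDiff (E t) (par T)

def valid : (V → V → Prop) → List (List V) → Prop
  | _, [] => True
  | S, t :: T => (IsDCycle S t ∧ t.length = 3) ∧ valid (fl S (E t)) T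

def used (T : List (List V)) : Set (Sym2 V) := {e | ∃ t ∈ T, e ∈ E t}

lemma par_append (T T' : List (List V)) : par (T ++ T') = symmDiff (par T) (par T') := by
  induction T with
  | nil => rw [List.nil_append, par, ← Set.bot_eq_empty, bot_symmDiff]
  | cons t T ih => simp [par, ih, symmDiff_assoc]

lemma valid_append {S : V → V → Prop} (h : ∀ u, ¬ S u u) (T T' : List (List V)) :
    valid S (T ++ T') ↔ valid S T ∧ valid (fl S (par T)) T' := by
  induction T generalizing S with
  | nil => simp [par, valid, fl_empty h]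
  | cons t T ih =>
    have h2 : ∀ u, ¬ fl S (E t) u u := fun u hu => hu.1 rfl
    simp only [List.cons_append, valid, par, ih h2, fl_fl, and_assoc]

lemma used_append (T T' : List (List V)) : used (T ++ T') = used T ∪ used T' := by
  ext e
  simp only [used, List.mem_append, Set.mem_ofPred_eq, Set.mem_union]
  constructor
  · rintro ⟨t, h1 | h1, h2⟩
    · exact Or.inl ⟨t, h1, h2⟩
    · exact Or.inr ⟨t, h1, h2⟩
  · rintro (⟨t, h1, h2⟩ | ⟨t, h1, h2⟩)
    · exact ⟨t, Or.inl h1, h2⟩
    · exact ⟨t, Or.inr h1, h2⟩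

lemma used_cons (t : List V) (T : List (List V)) : used (t :: T) = E t ∪ used T := by
  ext e
  simp [used]

lemma used_nil : used ([] : List (List V)) = ∅ := by
  ext e
  simp [used]

lemma valid_congr {S S' : V → V → Prop} {T : List (List V)}
    (h : ∀ a b, s(a, b) ∈ used T → (S a b ↔ S' a b)) (hv : valid S T) : valid S' T := by
  induction T generalizing S S' with
  | nil => trivial
  | cons t T ih =>
    obtain ⟨⟨⟨h1, h2, h3⟩, h4⟩, h5⟩ := hv
    refine ⟨⟨⟨h1, h2, fun p hp => ?_⟩, h4⟩, ih ?_ h5⟩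
    · rw [← h]
      · exact h3 p hp
      · rw [used_cons]
        exact Or.inl ⟨p, hp, rfl⟩
    · intro a b hab
      have := h a b (by rw [used_cons]; exact Or.inr hab)
      simp only [fl, this]

/-- path arcs -/
def pth (a : V) (us : List V) (b : V) : List (V × V) := (a :: us).zip (us ++ [b])

lemma pth_nil (a b : V) : pth a [] b = [(a, b)] := rfl

lemma pth_cons (a c b : V) (us : List V) : pth a (c :: us) b = (a, c) :: pth c us b := rfl

lemma pth_append (a c b : V) (us : List V) :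
    pth a (us ++ [c]) b = pth a us c ++ [(c, b)] := by
  induction us generalizing a with
  | nil => rfl
  | cons d us ih => rw [List.cons_append, pth_cons, ih, pth_cons, List.cons_append]

lemma arcs_cons (v a : V) (us : List V) : arcs (v :: a :: us) = (v, a) :: pth a us v := by
  simp [arcs, pth]

lemma mem_pth {a b : V} {us : List V} {p : V × V} (h : p ∈ pth a us b) :
    (p.1 = a ∨ p.1 ∈ us) ∧ (p.2 ∈ us ∨ p.2 = b) := by
  have h1 := List.of_mem_zip (a := p.1) (b := p.2) h
  simpa using h1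

lemma mem_arcs {l : List V} {p : V × V} (h : p ∈ arcs l) : p.1 ∈ l ∧ p.2 ∈ l := by
  have h1 := List.of_mem_zip (a := p.1) (b := p.2) h
  simpa using h1

lemma arcs_rotate (l : List V) (k : ℕ) : arcs (l.rotate k) = (arcs l).rotate k := by
  unfold arcs
  rw [List.rotate_rotate, Nat.add_comm, ← List.rotate_rotate]
  simp only [List.zip_eq_zipWith]
  rw [List.zipWith_rotate_distrib]
  simp

lemma mem_arcs_rotate {l : List V} {k : ℕ} {p : V × V} : p ∈ arcs (l.rotate k) ↔ p ∈ arcs l := by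
  rw [arcs_rotate, List.mem_rotate]

lemma E_rotate (l : List V) (k : ℕ) : E (l.rotate k) = E l := by
  ext e
  simp only [E, mem_arcs_rotate]

lemma isDCycle_rotate {S : V → V → Prop} {l : List V} {k : ℕ} (h : IsDCycle S l) :
    IsDCycle S (l.rotate k) := by
  refine ⟨List.nodup_rotate.2 h.1, by simpa using h.2.1, fun p hp => h.2.2 p (mem_arcs_rotate.1 hp)⟩

/-- rotate a vertex to the front -/
lemma exists_rot {l : List V} {c : V} (h : c ∈ l) : ∃ k us, l.rotate k = c :: us := by
  obtain ⟨l1, l2, rfl⟩ := List.append_of_mem h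
  refine ⟨l1.length, l2 ++ l1, ?_⟩
  rw [List.rotate_append_length_eq]
  rfl

lemma pth_ind {P : V → Prop} {a b : V} {us : List V} (ha : P a)
    (h : ∀ p ∈ pth a us b, P p.1 → P p.2) : ∀ c ∈ us, P c := by
  induction us generalizing a with
  | nil => simp
  | cons d us ih =>
    have hd : P d := h (a, d) (by rw [pth_cons]; simp) ha
    intro c hc
    rcases List.mem_cons.1 hc with rfl | hc
    · exact hd
    · exact ih hd (fun p hp => h p (by rw [pth_cons]; simp [hp])) c hc

lemma cyc_ind {P : V → Prop} {l : List V} (hl : 3 ≤ l.length) {c : V} (hc : c ∈ l) (hP : P c)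
    (h : ∀ p ∈ arcs l, P p.1 → P p.2) : ∀ d ∈ l, P d := by
  obtain ⟨k, us, hk⟩ := exists_rot hc
  have hlen : (c :: us).length = l.length := by rw [← hk]; simp
  match us, hk, hlen with
  | [], hk, hlen => simp at hlen; omega
  | a :: us, hk, hlen =>
    intro d hd
    have hd' : d ∈ c :: a :: us := by rw [← hk]; simpa using hd
    have h' : ∀ p ∈ arcs (c :: a :: us), P p.1 → P p.2 := by
      intro p hp
      rw [← hk] at hp
      exact h p (mem_arcs_rotate.1 hp)
    rw [arcs_cons] at h'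
    have ha : P a := h' (c, a) (by simp) hP
    rcases List.mem_cons.1 hd' with rfl | hd'
    · exact hP
    · rcases List.mem_cons.1 hd' with rfl | hd'
      · exact ha
      · exact pth_ind (b := c) ha (fun p hp => h' p (List.mem_cons_of_mem _ hp)) d hd'

lemma exists_succ {l : List V} (hl : 3 ≤ l.length) {c : V} (hc : c ∈ l) : ∃ d, (c, d) ∈ arcs l := by
  obtain ⟨k, us, hk⟩ := exists_rot hc
  have hlen : (c :: us).length = l.length := by rw [← hk]; simp
  match us, hk, hlen with
  | [], hk, hlen => simp at hlen; omega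
  | a :: us, hk, hlen =>
    refine ⟨a, ?_⟩
    rw [← mem_arcs_rotate (k := k), hk, arcs_cons]
    simp

lemma exists_pred {l : List V} (hl : 3 ≤ l.length) {c : V} (hc : c ∈ l) : ∃ d, (d, c) ∈ arcs l := by
  obtain ⟨k, us, hk⟩ := exists_rot hc
  have hlen : (c :: us).length = l.length := by rw [← hk]; simp
  match us, hk, hlen with
  | [], hk, hlen => simp at hlen; omega
  | a :: us, hk, hlen =>
    rcases List.eq_nil_or_concat us with rfl | ⟨us', d, rfl⟩
    · refine ⟨a, ?_⟩
      rw [← mem_arcs_rotate (k := k), hk, arcs_cons, pth_nil]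
      simp
    · refine ⟨d, ?_⟩
      rw [← mem_arcs_rotate (k := k), hk, arcs_cons, List.concat_eq_append, pth_append]
      simp

lemma E_finite (l : List V) : (E l).Finite := by
  have : E l = (fun p : V × V => s(p.1, p.2)) '' {p | p ∈ arcs l} := by
    ext e
    simp only [E, Set.mem_ofPred_eq, Set.mem_image]
    constructor
    · rintro ⟨p, h, rfl⟩; exact ⟨p, h, rfl⟩
    · rintro ⟨p, h, rfl⟩; exact ⟨p, h, rfl⟩
  rw [this]
  exact (List.finite_toSet _).image _

lemma mem_of_E {l : List V} {e : Sym2 V} (h : e ∈ E l) {x : V} (hx : x ∈ e) : x ∈ l := by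
  obtain ⟨p, hp, rfl⟩ := h
  have := mem_arcs hp
  rcases Sym2.mem_iff.1 hx with rfl | rfl
  · exact this.1
  · exact this.2

lemma E_three (a b c : V) : E [a, b, c] = {s(a, b), s(b, c), s(a, c)} := by
  ext e
  have : s(c, a) = s(a, c) := Sym2.eq_swap
  simp [E, arcs, this]

lemma isD_three {S : V → V → Prop} (hS : Tour S) {a b c : V} (h1 : S a b) (h2 : S b c)
    (h3 : S c a) : IsDCycle S [a, b, c] ∧ [a, b, c].length = 3 := by
  have n1 : a ≠ b := by rintro rfl; exact hS.1 _ h1
  have n2 : b ≠ c := by rintro rfl; exact hS.1 _ h2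
  have n3 : a ≠ c := by rintro rfl; exact hS.1 _ h3
  refine ⟨⟨by simp [n1, n2, n3], by simp, ?_⟩, rfl⟩
  intro p hp
  simp [arcs] at hp
  rcases hp with rfl | rfl | rfl
  · exact h1
  · exact h2
  · exact h3

lemma fl_mem {S : V → V → Prop} (hS : Tour S) {F : Set (Sym2 V)} {a b : V} (h : s(a, b) ∈ F)
    (hS' : S b a) : fl S F a b := by
  have hab : a ≠ b := by rintro rfl; exact hS.1 _ hS'
  refine ⟨hab, ?_⟩
  have := hS.2 a b hab
  tauto

lemma fl_not_mem {S : V → V → Prop} (hS : Tour S) {F : Set (Sym2 V)} {a b : V} (h : s(a, b) ∉ F)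
    (hS' : S a b) : fl S F a b := by
  have hab : a ≠ b := by rintro rfl; exact hS.1 _ hS'
  refine ⟨hab, ?_⟩
  tauto

def Ep (a : V) (us : List V) (b : V) : Set (Sym2 V) := {e | ∃ p ∈ pth a us b, e = s(p.1, p.2)}

lemma E_cons (v a : V) (us : List V) (e : Sym2 V) :
    e ∈ E (v :: a :: us) ↔ e = s(v, a) ∨ e ∈ Ep a us v := by
  simp only [E, arcs_cons, Ep, List.mem_cons, Set.mem_ofPred_eq]
  constructor
  · rintro ⟨p, rfl | hp, rfl⟩
    · exact Or.inl rfl
    · exact Or.inr ⟨p, hp, rfl⟩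
  · rintro (rfl | ⟨p, hp, rfl⟩)
    · exact ⟨_, Or.inl rfl, rfl⟩
    · exact ⟨p, Or.inr hp, rfl⟩

lemma Ep_cons (v a b : V) (us : List V) (e : Sym2 V) :
    e ∈ Ep v (a :: us) b ↔ e = s(v, a) ∨ e ∈ Ep a us b := by
  simp only [pth_cons, Ep, List.mem_cons, Set.mem_ofPred_eq]
  constructor
  · rintro ⟨p, rfl | hp, rfl⟩
    · exact Or.inl rfl
    · exact Or.inr ⟨p, hp, rfl⟩
  · rintro (rfl | ⟨p, hp, rfl⟩)
    · exact ⟨_, Or.inl rfl, rfl⟩
    · exact ⟨p, Or.inr hp, rfl⟩

lemma Ep_append (v a b : V) (us : List V) (e : Sym2 V) :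
    e ∈ Ep v (us ++ [a]) b ↔ e ∈ Ep v us a ∨ e = s(a, b) := by
  simp only [pth_append, Ep, List.mem_append, List.mem_singleton, Set.mem_ofPred_eq]
  constructor
  · rintro ⟨p, hp | rfl, rfl⟩
    · exact Or.inl ⟨p, hp, rfl⟩
    · exact Or.inr rfl
  · rintro (⟨p, hp, rfl⟩ | rfl)
    · exact ⟨p, Or.inl hp, rfl⟩
    · exact ⟨_, Or.inr rfl, rfl⟩

lemma not_mem_Ep {a b x : V} {us : List V} (h : x ≠ a) (h2 : x ∉ us) (h3 : x ≠ b) {e : Sym2 V}
    (he : x ∈ e) : e ∉ Ep a us b := by
  rintro ⟨p, hp, rfl⟩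
  have := mem_pth hp
  rcases Sym2.mem_iff.1 he with rfl | rfl
  · tauto
  · tauto

/-- the closing chord is not on a path with at least one inner vertex -/
lemma chord_not_mem {a b : V} {us : List V} (hne : us ≠ []) (ha : a ∉ us) (hb : b ∉ us)
    (hab : a ≠ b) : s(b, a) ∉ Ep a us b := by
  rintro ⟨p, hp, he⟩
  match us, hne with
  | c :: us, _ =>
    rw [pth_cons] at hp
    have hac : a ≠ c := by rintro rfl; simp at ha
    have hbc : b ≠ c := by rintro rfl; simp at hb
    have ha' : a ∉ us := by intro h; simp [h] at ha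
    have hb' : b ∉ us := by intro h; simp [h] at hb
    rcases List.mem_cons.1 hp with rfl | hp
    · rcases Sym2.eq_iff.1 he with ⟨h1, h2⟩ | ⟨h1, h2⟩
      · exact hab h1.symm
      · exact hbc h1
    · have h1 : a ∈ s(p.1, p.2) := by rw [← he]; simp
      exact (not_mem_Ep hac ha' hab h1) ⟨p, hp, rfl⟩

end Pool.Agent.R48.CR
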