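import Pool.Agent.R48.CR.A

open Set

namespace Pool.Agent.R48.CR

universe u

variable {V : Type u}

lemma xor_aux1 {A1 A2 A3 P : Prop} (k1 : A1 → ¬ P) (k2 : A2 → ¬ P) (k3 : A3 → ¬ P)
    (k4 : A1 → ¬ A3) (k5 : A2 → ¬ A3) :
    ((A1 ∨ A2 ∨ A3) ∧ ¬ (A3 ∨ P) ∨ (A3 ∨ P) ∧ ¬ (A1 ∨ A2 ∨ A3)) ↔ (A1 ∨ A2 ∨ P) := by
  by_cases h1 : A1 <;> by_cases h2 : A2 <;> by_cases h3 : A3 <;> by_cases h4 : P <;>
    simp_all

lemma xor_aux2 {B1 B2 B3 P : Prop} (k1 : B1 → ¬ P) (k2 : B2 → ¬ P) (k3 : B3 → ¬ P)
    (k4 : B1 → ¬ B2) (k5 : B3 → ¬ B2) (k6 : B1 → ¬ B3) :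
    ((B1 ∨ B2 ∨ B3) ∧ ¬ (B3 ∨ P ∨ B1) ∨ (B3 ∨ P ∨ B1) ∧ ¬ (B1 ∨ B2 ∨ B3)) ↔ (B2 ∨ P) := by
  by_cases h1 : B1 <;> by_cases h2 : B2 <;> by_cases h3 : B3 <;> by_cases h4 : P <;>
    simp_all

lemma fan {S : V → V → Prop} (hS : Tour S) {v a : V} {us : List V} (hne : us ≠ [])
    (hd : IsDCycle S (v :: a :: us)) :
    ∃ T, valid S T ∧ par T = E (v :: a :: us) ∧
      ∀ e ∈ used T, e ∈ E (v :: a :: us) ∨ ∃ c ∈ a :: us, e = s(v, c) := by
  induction us generalizing a S with
  | nil => exact absurd rfl hne
  | cons b us ih =>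
    obtain ⟨hn, hl, hA⟩ := hd
    have hva : S v a := hA (v, a) (by rw [arcs_cons]; simp)
    have hab : S a b := hA (a, b) (by rw [arcs_cons, pth_cons]; simp)
    by_cases hus : us = []
    · subst hus
      have hbv : S b v := hA (b, v) (by rw [arcs_cons, pth_cons, pth_nil]; simp)
      refine ⟨[[v, a, b]], ⟨isD_three hS hva hab hbv, trivial⟩, ?_, ?_⟩
      · simp only [par]
        rw [← Set.bot_eq_empty, symmDiff_bot]
      · intro e he
        rw [used_cons, used_nil, Set.union_empty] at he
        exact Or.inl he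
    have hP : ∀ p ∈ pth b us v, S p.1 p.2 := by
      intro p hp
      exact hA p (by rw [arcs_cons, pth_cons]; simp [hp])
    simp only [List.nodup_cons, List.mem_cons, not_or] at hn
    obtain ⟨⟨nva, nvb, nv⟩, ⟨nab, na⟩, nb, nus⟩ := hn
    have f3 : s(v, b) ∉ Ep b us v := chord_not_mem hus nb nv (Ne.symm nvb)
    have f1 : s(v, a) ∉ Ep b us v := not_mem_Ep (x := a) nab na (Ne.symm nva) (by simp)
    have f2 : s(a, b) ∉ Ep b us v := not_mem_Ep (x := a) nab na (Ne.symm nva) (by simp)
    have g1 : s(v, a) ≠ s(v, b) := by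
      intro h
      rcases Sym2.eq_iff.1 h with ⟨_, h⟩ | ⟨h, _⟩
      · exact nab h
      · exact nvb h
    have g2 : s(a, b) ≠ s(v, b) := by
      intro h
      rcases Sym2.eq_iff.1 h with ⟨h, _⟩ | ⟨h, _⟩
      · exact nva h.symm
      · exact nab h
    have key : symmDiff (E [v, a, b]) (E (v :: b :: us)) = E (v :: a :: b :: us) := by
      ext e
      rw [Set.mem_symmDiff, E_three, E_cons, E_cons, Ep_cons]
      simp only [Set.mem_insert_iff, Set.mem_singleton_iff]
      have k1 : e = s(v, a) → e ∉ Ep b us v := by rintro rfl; exact f1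
      have k2 : e = s(a, b) → e ∉ Ep b us v := by rintro rfl; exact f2
      have k3 : e = s(v, b) → e ∉ Ep b us v := by rintro rfl; exact f3
      have k4 : e = s(v, a) → ¬ e = s(v, b) := by rintro rfl; exact g1
      have k5 : e = s(a, b) → ¬ e = s(v, b) := by rintro rfl; exact g2
      exact xor_aux1 k1 k2 k3 k4 k5
    have nd' : (v :: b :: us).Nodup := by
      simp only [List.nodup_cons, List.mem_cons, not_or]
      exact ⟨⟨nvb, nv⟩, nb, nus⟩
    have len' : 3 ≤ (v :: b :: us).length := by
      match us, hus with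
      | c :: us, _ => simp
    by_cases hvb : S v b
    · have hd' : IsDCycle S (v :: b :: us) := by
        refine ⟨nd', len', ?_⟩
        rw [arcs_cons]
        intro p hp
        rcases List.mem_cons.1 hp with rfl | hp
        · exact hvb
        · exact hP p hp
      obtain ⟨T, hv, hp, hu⟩ := ih hS hus hd'
      refine ⟨T ++ [[v, a, b]], ?_, ?_, ?_⟩
      · rw [valid_append hS.1, hp]
        refine ⟨hv, isD_three (tour_fl hS _) ?_ ?_ ?_, trivial⟩
        · apply fl_not_mem hS _ hva
          rw [E_cons]; tauto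
        · apply fl_not_mem hS _ hab
          rw [E_cons]; tauto
        · apply fl_mem hS _ hvb
          rw [E_cons, Sym2.eq_swap]; tauto
      · rw [par_append, hp, symmDiff_comm]
        simp only [par]
        rw [← Set.bot_eq_empty, symmDiff_bot]
        exact key
      · intro e he
        rw [used_append, used_cons, used_nil, Set.union_empty, E_three] at he
        rcases he with he | he
        · rcases hu e he with h1 | ⟨c, hc, rfl⟩
          · rw [E_cons] at h1
            rcases h1 with rfl | h1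
            · exact Or.inr ⟨b, by simp, rfl⟩
            · left
              rw [E_cons, Ep_cons]; tauto
          · refine Or.inr ⟨c, ?_, rfl⟩
            simp only [List.mem_cons] at hc ⊢
            tauto
        · simp only [Set.mem_insert_iff, Set.mem_singleton_iff] at he
          rcases he with rfl | rfl | rfl
          · exact Or.inr ⟨a, by simp, rfl⟩
          · left
            rw [E_cons, Ep_cons]; tauto
          · exact Or.inr ⟨b, by simp, rfl⟩
    · have hbv : S b v := by
        have := hS.2 b v (Ne.symm nvb)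
        tauto
      have hS' : Tour (fl S (E [v, a, b])) := tour_fl hS _
      have hd' : IsDCycle (fl S (E [v, a, b])) (v :: b :: us) := by
        refine ⟨nd', len', ?_⟩
        rw [arcs_cons]
        intro p hp
        rcases List.mem_cons.1 hp with rfl | hp
        · apply fl_mem hS _ hbv
          rw [E_three]; simp
        · apply fl_not_mem hS _ (hP p hp)
          rw [E_three]
          simp only [Set.mem_insert_iff, Set.mem_singleton_iff]
          have hpE : s(p.1, p.2) ∈ Ep b us v := ⟨p, hp, rfl⟩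
          rintro (h | h | h) <;> rw [h] at hpE
          · exact f1 hpE
          · exact f2 hpE
          · exact f3 hpE
      obtain ⟨T, hv, hp, hu⟩ := ih hS' hus hd'
      refine ⟨[v, a, b] :: T, ⟨isD_three hS hva hab hbv, hv⟩, ?_, ?_⟩
      · simp only [par]
        rw [hp]
        exact key
      · intro e he
        rw [used_cons, E_three] at he
        rcases he with he | he
        · simp only [Set.mem_insert_iff, Set.mem_singleton_iff] at he
          rcases he with rfl | rfl | rfl
          · exact Or.inr ⟨a, by simp, rfl⟩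
          · left
            rw [E_cons, Ep_cons]; tauto
          · exact Or.inr ⟨b, by simp, rfl⟩
        · rcases hu e he with h1 | ⟨c, hc, rfl⟩
          · rw [E_cons] at h1
            rcases h1 with rfl | h1
            · exact Or.inr ⟨b, by simp, rfl⟩
            · left
              rw [E_cons, Ep_cons]; tauto
          · refine Or.inr ⟨c, ?_, rfl⟩
            simp only [List.mem_cons] at hc ⊢
            tauto

/-- fan from an arbitrary vertex of the cycle -/
lemma fan' {S : V → V → Prop} (hS : Tour S) {l : List V} (hd : IsDCycle S l) {v : V} (hv : v ∈ l) :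
    ∃ T, valid S T ∧ par T = E l ∧ ∀ e ∈ used T, e ∈ E l ∨ ∃ c ∈ l, e = s(v, c) := by
  obtain ⟨k, us, hk⟩ := exists_rot hv
  have hlen : (v :: us).length = l.length := by rw [← hk]; simp
  have h3 := hd.2.1
  match us, hk, hlen with
  | [], hk, hlen => simp at hlen; omega
  | [a], hk, hlen => simp at hlen; omega
  | a :: b :: us, hk, hlen =>
    have hd' : IsDCycle S (v :: a :: b :: us) := by
      rw [← hk]; exact isDCycle_rotate hd
    obtain ⟨T, h1, h2, h3⟩ := fan hS (by simp) hd'
    rw [← hk, E_rotate] at h2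
    refine ⟨T, h1, h2, fun e he => ?_⟩
    rcases h3 e he with h | ⟨c, hc, rfl⟩
    · rw [← hk, E_rotate] at h
      exact Or.inl h
    · have hc : c ∈ v :: a :: b :: us := List.mem_cons_of_mem _ hc
      rw [← hk, List.mem_rotate] at hc
      exact Or.inr ⟨c, hc, rfl⟩

lemma cone {S : V → V → Prop} (hS : Tour S) {l : List V} (hd : IsDCycle S l) {x : V} (hx : x ∉ l)
    (h1 : ∃ c ∈ l, S x c) (h2 : ∃ c ∈ l, S c x) :
    ∃ T, valid S T ∧ par T = E l ∧ ∀ e ∈ used T, e ∈ E l ∨ ∃ c ∈ l, e = s(x, c) := by
  -- find the arc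
  have h3 : ∃ p ∈ arcs l, S x p.1 ∧ S p.2 x := by
    by_contra hcon
    push Not at hcon
    obtain ⟨c, hc, hxc⟩ := h1
    obtain ⟨d, hd1, hdx⟩ := h2
    have : ∀ d ∈ l, S x d := by
      apply cyc_ind (P := fun d => S x d) hd.2.1 hc hxc
      intro p hp hp1
      have hne : x ≠ p.2 := by
        rintro rfl
        exact hx (mem_arcs hp).2
      have := hS.2 x p.2 hne
      have := hcon p hp hp1
      tauto
    have hne : x ≠ d := by rintro rfl; exact hx hd1
    have h4 := hS.2 x d hne
    have h5 := this d hd1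
    tauto
  obtain ⟨⟨c, c'⟩, hp, hxc, hcx⟩ := h3
  simp only at hxc hcx
  obtain ⟨k, us, hk⟩ := exists_rot (mem_arcs hp).1
  simp only at hk
  have hlen : (c :: us).length = l.length := by rw [← hk]; simp
  have h3 := hd.2.1
  have hd' : IsDCycle S (c :: us) := by rw [← hk]; exact isDCycle_rotate hd
  have hp' : (c, c') ∈ arcs (c :: us) := by rw [← hk, mem_arcs_rotate]; exact hp
  have hx' : x ∉ c :: us := by rw [← hk, List.mem_rotate]; exact hx
  have hE : E (c :: us) = E l := by rw [← hk, E_rotate]
  have hmem : ∀ y, y ∈ c :: us → y ∈ l := by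
    intro y hy
    rw [← hk, List.mem_rotate] at hy
    exact hy
  match us, hlen, hd', hp', hx', hE, hmem with
  | [], hlen, _, _, _, _, _ => simp at hlen; omega
  | [a], hlen, _, _, _, _, _ => simp at hlen; omega
  | a :: b :: us, hlen, hd', hp', hx', hE, hmem =>
    have hn := hd'.1
    -- c' = a
    have hca : c' = a := by
      rw [arcs_cons] at hp'
      rcases List.mem_cons.1 hp' with h | h
      · exact (Prod.mk.inj h).2
      · exfalso
        have := mem_pth h
        simp only [List.nodup_cons, List.mem_cons, not_or] at hn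
        simp only [List.mem_cons] at this
        rcases this.1 with h4 | h4 | h4
        · exact hn.1.1 h4
        · exact hn.1.2.1 h4
        · exact hn.1.2.2 h4
    subst hca
    have hcc : S c c' := hd'.2.2 (c, c') (by rw [arcs_cons]; simp)
    have hnn := hn
    simp only [List.nodup_cons, List.mem_cons, not_or] at hn hx'
    obtain ⟨⟨nca, ncb, nc⟩, ⟨nab, na⟩, nb, nus⟩ := hn
    obtain ⟨xc, xa, xb, xus⟩ := hx'
    have hP : ∀ p ∈ pth c' (b :: us) c, S p.1 p.2 := by
      intro p hp
      exact hd'.2.2 p (by rw [arcs_cons]; simp [hp])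
    have f2 : s(c, c') ∉ Ep c' (b :: us) c := by
      apply chord_not_mem (by simp) _ _ (Ne.symm nca)
      · simp only [List.mem_cons, not_or]; exact ⟨nab, na⟩
      · simp only [List.mem_cons, not_or]; exact ⟨ncb, nc⟩
    have f1 : s(x, c) ∉ Ep c' (b :: us) c :=
      not_mem_Ep (x := x) xa (by simp only [List.mem_cons, not_or]; exact ⟨xb, xus⟩) xc (by simp)
    have f3 : s(x, c') ∉ Ep c' (b :: us) c :=
      not_mem_Ep (x := x) xa (by simp only [List.mem_cons, not_or]; exact ⟨xb, xus⟩) xc (by simp)
    have g12 : s(x, c) ≠ s(c, c') := by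
      intro h
      have : x ∈ s(c, c') := by rw [← h]; simp
      rcases Sym2.mem_iff.1 this with h | h
      · exact xc h
      · exact xa h
    have g32 : s(x, c') ≠ s(c, c') := by
      intro h
      have : x ∈ s(c, c') := by rw [← h]; simp
      rcases Sym2.mem_iff.1 this with h | h
      · exact xc h
      · exact xa h
    have g13 : s(x, c) ≠ s(x, c') := by
      intro h
      have : c ∈ s(x, c') := by rw [← h]; simp
      rcases Sym2.mem_iff.1 this with h | h
      · exact xc h.symm
      · exact nca h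
    set S' := fl S (E [x, c, c']) with hS'def
    have hS' : Tour S' := tour_fl hS _
    have key : symmDiff (E [x, c, c']) (E (x :: c' :: (b :: us ++ [c]))) = E l := by
      rw [← hE]
      ext e
      rw [Set.mem_symmDiff, E_three, E_cons, E_cons, Ep_append]
      simp only [Set.mem_insert_iff, Set.mem_singleton_iff]
      have e1 : s(c, x) = s(x, c) := Sym2.eq_swap
      rw [e1]
      have k1 : e = s(x, c) → e ∉ Ep c' (b :: us) c := by rintro rfl; exact f1
      have k2 : e = s(c, c') → e ∉ Ep c' (b :: us) c := by rintro rfl; exact f2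
      have k3 : e = s(x, c') → e ∉ Ep c' (b :: us) c := by rintro rfl; exact f3
      have k4 : e = s(x, c) → ¬ e = s(c, c') := by rintro rfl; exact g12
      have k5 : e = s(x, c') → ¬ e = s(c, c') := by rintro rfl; exact g32
      have k6 : e = s(x, c) → ¬ e = s(x, c') := by rintro rfl; exact g13
      exact xor_aux2 k1 k2 k3 k4 k5 k6
    have hd'' : IsDCycle S' (x :: c' :: (b :: us ++ [c])) := by
      refine ⟨?_, by simp, ?_⟩
      · have : (x :: c' :: (b :: us ++ [c])) = x :: ((c :: c' :: b :: us).rotate 1) := by simp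
        rw [this, List.nodup_cons, List.mem_rotate, List.nodup_rotate]
        refine ⟨?_, hnn⟩
        simp only [List.mem_cons, not_or]
        exact ⟨xc, xa, xb, xus⟩
      · rw [arcs_cons, pth_append]
        intro p hp
        rcases List.mem_cons.1 hp with rfl | hp
        · apply fl_mem hS _ hcx
          rw [E_three]; simp
        · rcases List.mem_append.1 hp with hp | hp
          · apply fl_not_mem hS _ (hP p hp)
            rw [E_three]
            simp only [Set.mem_insert_iff, Set.mem_singleton_iff]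
            have hpE : s(p.1, p.2) ∈ Ep c' (b :: us) c := ⟨p, hp, rfl⟩
            rintro (h | h | h) <;> rw [h] at hpE
            · exact f1 hpE
            · exact f2 hpE
            · exact f3 hpE
          · rw [List.mem_singleton] at hp
            subst hp
            apply fl_mem hS _ hxc
            rw [E_three, Sym2.eq_swap]; simp
    obtain ⟨T, hv, hpT, hu⟩ := fan hS' (by simp) hd''
    refine ⟨[x, c, c'] :: T, ⟨isD_three hS hxc hcc hcx, hv⟩, ?_, ?_⟩
    · simp only [par]
      rw [hpT]
      exact key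
    · intro e he
      rw [used_cons, E_three] at he
      have hcl : c ∈ l := hmem c (by simp)
      have hal : c' ∈ l := hmem c' (by simp)
      rcases he with he | he
      · simp only [Set.mem_insert_iff, Set.mem_singleton_iff] at he
        rcases he with rfl | rfl | rfl
        · exact Or.inr ⟨c, hcl, rfl⟩
        · left
          rw [← hE, E_cons]; tauto
        · exact Or.inr ⟨c', hal, rfl⟩
      · rcases hu e he with h1 | ⟨y, hy, rfl⟩
        · rw [E_cons, Ep_append] at h1
          rcases h1 with rfl | h1 | rfl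
          · exact Or.inr ⟨c', hal, rfl⟩
          · left
            rw [← hE, E_cons]; tauto
          · exact Or.inr ⟨c, hcl, Sym2.eq_swap⟩
        · refine Or.inr ⟨y, ?_, rfl⟩
          apply hmem
          simp only [List.mem_cons, List.cons_append, List.mem_append,
            List.not_mem_nil, or_false] at hy ⊢
          tauto

lemma E_three_swap (a b c : V) : E [a, c, b] = E [a, b, c] := by
  ext e
  have : s(c, b) = s(b, c) := Sym2.eq_swap
  rw [E_three, E_three, this]
  simp only [Set.mem_insert_iff, Set.mem_singleton_iff]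
  tauto

lemma conj3 {S : V → V → Prop} (hS : Tour S) {a b c : V} {l : List V} {T : List (List V)}
    (h1 : S a b) (h2 : S b c) (h3 : S c a) (g : ∀ e ∈ E l, e ∉ E [a, b, c])
    (hv : valid (fl S (E [a, b, c])) T) (hp : par T = E l) :
    valid S ([a, b, c] :: T ++ [[a, c, b]]) ∧ par ([a, b, c] :: T ++ [[a, c, b]]) = E l ∧
      used ([a, b, c] :: T ++ [[a, c, b]]) = E [a, b, c] ∪ used T := by
  have m1 : s(a, b) ∈ E [a, b, c] := by rw [E_three]; simp
  have m2 : s(b, c) ∈ E [a, b, c] := by rw [E_three]; simp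
  have m3 : s(a, c) ∈ E [a, b, c] := by rw [E_three]; simp
  refine ⟨?_, ?_, ?_⟩
  · rw [List.cons_append]
    refine ⟨isD_three hS h1 h2 h3, ?_⟩
    rw [valid_append (tour_fl hS _).1]
    refine ⟨hv, ?_, trivial⟩
    rw [hp]
    have hS1 := tour_fl hS (E [a, b, c])
    apply isD_three (tour_fl hS1 _)
    · apply fl_not_mem hS1 (fun h => g _ h m3)
      exact fl_mem hS m3 h3
    · apply fl_not_mem hS1 (fun h => g _ h (by rw [Sym2.eq_swap]; exact m2))
      exact fl_mem hS (by rw [Sym2.eq_swap]; exact m2) h2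
    · apply fl_not_mem hS1 (fun h => g _ h (by rw [Sym2.eq_swap]; exact m1))
      exact fl_mem hS (by rw [Sym2.eq_swap]; exact m1) h1
  · rw [par_append, par, par, par, hp, E_three_swap, ← Set.bot_eq_empty, symmDiff_bot,
      symmDiff_comm (E [a, c, b]), symmDiff_assoc, symmDiff_self, symmDiff_bot]
  · rw [used_append, used_cons, used_cons, used_nil, E_three_swap, Set.union_empty]
    ext e
    simp only [Set.mem_union]
    tauto

lemma dir_fl {S : V → V → Prop} (hS : Tour S) {l : List V} (hd : IsDCycle S l) {F : Set (Sym2 V)}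
    (h : ∀ e ∈ E l, e ∉ F) : IsDCycle (fl S F) l :=
  ⟨hd.1, hd.2.1, fun p hp => fl_not_mem hS (h _ ⟨p, hp, rfl⟩) (hd.2.2 p hp)⟩

lemma not_mem_of {l : List V} {e : Sym2 V} {x : V} (hx : x ∉ l) (he : x ∈ e) : e ∉ E l :=
  fun h => hx (mem_of_E h he)

lemma pair {S : V → V → Prop} (hS : Tour S) {l : List V} (hd : IsDCycle S l) {n p : V}
    (hn : n ∉ l) (hp : p ∉ l) (h1 : ∀ c ∈ l, S p c) (h2 : ∀ c ∈ l, S c n) (h3 : S n p) :
    ∃ T, valid S T ∧ par T = E l ∧ ∀ e ∈ used T, e ∈ E l ∨ e = s(n, p) ∨
      ∃ c ∈ l, e = s(n, c) ∨ e = s(p, c) := by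
  obtain ⟨l0, hn0, hl0⟩ : ∃ l0, l0 = l ∧ l0.Nodup := ⟨l, rfl, hd.1⟩
  match l0, hn0, hl0 with
  | [], hn0, _ => have := hd.2.1; rw [← hn0] at this; simp at this
  | [_], hn0, _ => have := hd.2.1; rw [← hn0] at this; simp at this
  | c :: d :: us, hn0, hl0 =>
    have hc : c ∈ l := by rw [← hn0]; simp
    have hd1 : d ∈ l := by rw [← hn0]; simp
    have hcd : c ≠ d := by
      simp only [List.nodup_cons, List.mem_cons, not_or] at hl0
      exact hl0.1.1
    have hcn : S c n := h2 c hc
    have hpc : S p c := h1 c hc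
    have g : ∀ e ∈ E l, e ∉ E [c, n, p] := by
      intro e he h
      rw [E_three] at h
      simp only [Set.mem_insert_iff, Set.mem_singleton_iff] at h
      rcases h with rfl | rfl | rfl
      · exact not_mem_of hn (by simp) he
      · exact not_mem_of hn (by simp) he
      · exact not_mem_of hp (by simp) he
    have hS1 : Tour (fl S (E [c, n, p])) := tour_fl hS _
    have hd' : IsDCycle (fl S (E [c, n, p])) l := dir_fl hS hd g
    have hnp : n ≠ p := by rintro rfl; exact hS.1 _ h3
    have hcp : c ≠ p := by rintro rfl; exact hp hc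
    have hdp : d ≠ p := by rintro rfl; exact hp hd1
    have hdn : d ≠ n := by rintro rfl; exact hn hd1
    obtain ⟨T, hv, hpar, hu⟩ := cone hS1 hd' hp
      ⟨d, hd1, by
        apply fl_not_mem hS _ (h1 d hd1)
        intro h
        have hdm : d ∈ s(p, d) := by simp
        have := mem_of_E h hdm
        simp only [List.mem_cons, List.not_mem_nil, or_false] at this
        rcases this with rfl | rfl | rfl
        · exact hcd rfl
        · exact hdn rfl
        · exact hdp rfl⟩
      ⟨c, hc, by
        apply fl_mem hS _ hpc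
        rw [E_three]; simp⟩
    obtain ⟨k1, k2, k3⟩ := conj3 hS hcn h3 hpc g hv hpar
    refine ⟨_, k1, k2, ?_⟩
    rw [k3]
    intro e he
    rcases he with he | he
    · rw [E_three] at he
      simp only [Set.mem_insert_iff, Set.mem_singleton_iff] at he
      rcases he with rfl | rfl | rfl
      · exact Or.inr (Or.inr ⟨c, hc, Or.inl Sym2.eq_swap⟩)
      · exact Or.inr (Or.inl rfl)
      · exact Or.inr (Or.inr ⟨c, hc, Or.inr Sym2.eq_swap⟩)
    · rcases hu e he with h | ⟨y, hy, rfl⟩
      · exact Or.inl h
      · exact Or.inr (Or.inr ⟨y, hy, Or.inr rfl⟩)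

lemma triple {S : V → V → Prop} (hS : Tour S) {l : List V} (hd : IsDCycle S l) {n p a : V}
    (hn : n ∉ l) (hp : p ∉ l) (h1 : ∀ c ∈ l, S p c) (h2 : ∀ c ∈ l, S c n) (h3 : S p n)
    (h4 : S n a) (h5 : S a p) :
    ∃ T, valid S T ∧ par T = E l ∧ ∀ e ∈ used T, e ∈ E l ∨ e = s(n, p) ∨ e = s(n, a) ∨ e = s(a, p) ∨
      ∃ c ∈ l, e = s(n, c) ∨ e = s(p, c) := by
  have ha : a ∉ l := by
    intro ha
    have hna : n ≠ a := by rintro rfl; exact hn ha
    have := hS.2 n a hna
    have := h2 a ha
    tauto
  have g : ∀ e ∈ E l, e ∉ E [n, a, p] := by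
    intro e he h
    rw [E_three] at h
    simp only [Set.mem_insert_iff, Set.mem_singleton_iff] at h
    rcases h with rfl | rfl | rfl
    · exact not_mem_of hn (by simp) he
    · exact not_mem_of ha (by simp) he
    · exact not_mem_of hn (by simp) he
  have hS1 : Tour (fl S (E [n, a, p])) := tour_fl hS _
  have hd' : IsDCycle (fl S (E [n, a, p])) l := dir_fl hS hd g
  have aux : ∀ c ∈ l, ∀ e, c ∈ e → e ∉ E [n, a, p] := by
    intro c hc e hce h
    have := mem_of_E h hce
    simp only [List.mem_cons, List.not_mem_nil, or_false] at this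
    rcases this with rfl | rfl | rfl
    · exact hn hc
    · exact ha hc
    · exact hp hc
  obtain ⟨T, hv, hpar, hu⟩ := pair hS1 hd' hn hp
    (fun c hc => fl_not_mem hS (aux c hc _ (by simp)) (h1 c hc))
    (fun c hc => fl_not_mem hS (aux c hc _ (by simp)) (h2 c hc))
    (fl_mem hS (by rw [E_three]; simp) h3)
  obtain ⟨k1, k2, k3⟩ := conj3 hS h4 h5 h3 g hv hpar
  refine ⟨_, k1, k2, ?_⟩
  rw [k3]
  intro e he
  rcases he with he | he
  · rw [E_three] at he
    simp only [Set.mem_insert_iff, Set.mem_singleton_iff] at he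
    tauto
  · rcases hu e he with h | h | h
    · exact Or.inl h
    · exact Or.inr (Or.inl h)
    · exact Or.inr (Or.inr (Or.inr (Or.inr h)))

end Pool.Agent.R48.CR
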