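import Pool.Agent.R48.CR.B

open Set Cardinal

namespace Pool.Agent.R48.CR

universe u

structure Ctx (V ι : Type u) [LinearOrder ι] [WellFoundedLT ι] where
  D : V → V → Prop
  C : ι → List V
  tD : Tour D
  nd : ∀ i, (C i).Nodup
  len : ∀ i, 3 ≤ (C i).length
  lf : ∀ e : Sym2 V, {i | e ∈ E (C i)}.Finite
  dir : ∀ i, ∀ p ∈ arcs (C i), fl D {e | Odd (Set.ncard {j | j < i ∧ e ∈ E (C j)})} p.1 p.2

/-- the pairs inside `B` -/
def sq {V : Type u} (B : Set V) : Set (Sym2 V) := {e | ∀ x ∈ e, x ∈ B}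

lemma mem_sq {V : Type u} {B : Set V} {a b : V} : s(a, b) ∈ sq B ↔ a ∈ B ∧ b ∈ B := by
  simp [sq]

lemma card_union_le {V : Type u} {β : Cardinal.{u}} (hβ : ℵ₀ ≤ β) {A B : Set V} (hA : #A ≤ β)
    (hB : #B ≤ β) : #(A ∪ B : Set V) ≤ β :=
  (mk_union_le A B).trans ((add_le_add hA hB).trans (add_eq_self hβ).le)

namespace Ctx

variable {V ι : Type u} [LinearOrder ι] [WellFoundedLT ι] (X : Ctx V ι)

def pre (i : ι) : Set (Sym2 V) := {e | Odd (Set.ncard {j | j < i ∧ e ∈ E (X.C j)})}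

/-- local state -/
def loc (i : ι) : V → V → Prop := fl X.D (X.pre i ∩ E (X.C i))

lemma loc_tour (i : ι) : Tour (X.loc i) := tour_fl X.tD _

lemma loc_dir (i : ι) : IsDCycle (X.loc i) (X.C i) := by
  refine ⟨X.nd i, X.len i, fun p hp => ?_⟩
  have h := X.dir i p hp
  have he : s(p.1, p.2) ∈ E (X.C i) := ⟨p, hp, rfl⟩
  refine ⟨h.1, ?_⟩
  have h2 := h.2
  simp only [pre, Set.mem_inter_iff, he, and_true]
  exact h2

lemma loc_of {i : ι} {a b : V} (h : X.D a b) (he : s(a, b) ∉ E (X.C i)) : X.loc i a b :=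
  fl_not_mem X.tD (fun h' => he h'.2) h

def Gad (Q : Set (Sym2 V)) (L : Set V) (i : ι) (T : List (List V)) : Prop :=
  par T = E (X.C i) ∧ valid (X.loc i) T ∧ ∀ e ∈ used T, e ∉ E (X.C i) → e ∉ Q ∧ ∃ x ∈ e, x ∉ L

def R (Q : Set (Sym2 V)) : Prop := ∀ i, ∀ e ∈ E (X.C i), ∀ e' ∈ E (X.C i), e ∈ Q → e' ∈ Q

def G (β : Cardinal.{u}) (Q : Set (Sym2 V)) : Prop := ∀ i, (∀ e ∈ E (X.C i), e ∉ Q) →
  (∃ x ∈ X.C i, ∃ e ∈ Q, x ∈ e) → ∀ L : Set V, #L ≤ β → ∃ T, X.Gad Q L i T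

def H (β : Cardinal.{u}) (Q : Set (Sym2 V)) : Prop := ∀ n z p, s(n,p) ∈ Q → X.D n z → X.D z p →
  s(n,z) ∉ Q → s(z,p) ∉ Q → ∀ L : Set V, #L ≤ β →
    ∃ x, x ∉ L ∧ X.D n x ∧ X.D x p ∧ s(n,x) ∉ Q ∧ s(x,p) ∉ Q

def Phi (Q : Set (Sym2 V)) (Z : Set V) (a : V) : Prop := ∀ n p, n ∉ Z → p ∉ Z → X.D p a →
  X.D a n → s(n,p) ∉ Q →
    X.D p n ∧ ∀ a', X.D n a' → X.D a' p → s(n,a') ∉ Q → s(a',p) ∉ Q → False

def Y (Q : Set (Sym2 V)) (n p : V) : Set V := {x | X.D n x ∧ X.D x p ∧ s(n,x) ∉ Q ∧ s(x,p) ∉ Q}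

structure Inv (β : Cardinal.{u}) (Q : Set (Sym2 V)) : Prop where
  r : X.R Q
  g : X.G β Q
  h : X.H β Q

def P1 (B : Set V) : Prop := ∀ i, ∀ e ∈ E (X.C i), e ∈ sq B → ∀ x ∈ X.C i, x ∈ B

structure Closed (β : Cardinal.{u}) (Q : Set (Sym2 V)) (B : Set V) : Prop where
  card : #B ≤ β
  p1 : X.P1 B
  p2 : ∀ n ∈ B, ∀ p ∈ B, #(X.Y Q n p) ≤ β → X.Y Q n p ⊆ B
  p3 : ∀ a ∈ B, ∀ Z : Set V, #Z ≤ β → X.Phi Q Z a → ∃ Z' ⊆ B, X.Phi Q Z' a

variable {X}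

lemma Inv.mono {β β' : Cardinal.{u}} {Q : Set (Sym2 V)} (h : X.Inv β Q) (hb : β' ≤ β) :
    X.Inv β' Q :=
  ⟨h.r, fun i h1 h2 L hL => h.g i h1 h2 L (hL.trans hb),
    fun n z p h1 h2 h3 h4 h5 L hL => h.h n z p h1 h2 h3 h4 h5 L (hL.trans hb)⟩

lemma asymm (X : Ctx V ι) {a b : V} (h : X.D a b) (h' : X.D b a) : False := by
  by_cases hab : a = b
  · subst hab; exact X.tD.1 _ h
  · exact (X.tD.2 a b hab).1 h h'

lemma total (X : Ctx V ι) {a b : V} (h : a ≠ b) (h' : ¬ X.D a b) : X.D b a := by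
  by_contra h''
  exact h' ((X.tD.2 a b h).2 h'')

lemma R_union {Q : Set (Sym2 V)} {B : Set V} (h : X.R Q) (hB : X.P1 B) : X.R (Q ∪ sq B) := by
  intro i e he e' he' h1
  rcases h1 with h1 | h1
  · exact Or.inl (h i e he e' he' h1)
  · exact Or.inr (fun x hx => hB i e he h1 x (mem_of_E he' hx))

lemma H_union {β : Cardinal.{u}} (hβ : ℵ₀ ≤ β) {Q : Set (Sym2 V)} {B : Set V} (h : X.H β Q)
    (hB : X.Closed β Q B) : X.H β (Q ∪ sq B) := by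
  intro n z p hnp hnz hzp q1 q2 L hL
  have hLB := card_union_le hβ hL hB.card
  simp only [Set.mem_union, not_or] at q1 q2
  rcases hnp with hnp | hnp
  · obtain ⟨x, hx, h1, h2, h3, h4⟩ := h n z p hnp hnz hzp q1.1 q2.1 _ hLB
    simp only [Set.mem_union, not_or] at hx
    refine ⟨x, hx.1, h1, h2, ?_, ?_⟩
    · rintro (h5 | h5)
      · exact h3 h5
      · exact hx.2 (mem_sq.1 h5).2
    · rintro (h5 | h5)
      · exact h4 h5
      · exact hx.2 (mem_sq.1 h5).1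
  · obtain ⟨hn, hp⟩ := mem_sq.1 hnp
    have hz : z ∉ B := fun hz => q1.2 (mem_sq.2 ⟨hn, hz⟩)
    have hzY : z ∈ X.Y Q n p := ⟨hnz, hzp, q1.1, q2.1⟩
    have hY : ¬ #(X.Y Q n p) ≤ β := fun hY => hz (hB.p2 n hn p hp hY hzY)
    have : ∃ x ∈ X.Y Q n p, x ∉ L ∪ B := by
      by_contra hcon
      push Not at hcon
      exact hY ((mk_le_mk_of_subset hcon).trans hLB)
    obtain ⟨x, ⟨h1, h2, h3, h4⟩, hx⟩ := this
    simp only [Set.mem_union, not_or] at hx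
    refine ⟨x, hx.1, h1, h2, ?_, ?_⟩
    · rintro (h5 | h5)
      · exact h3 h5
      · exact hx.2 (mem_sq.1 h5).2
    · rintro (h5 | h5)
      · exact h4 h5
      · exact hx.2 (mem_sq.1 h5).1

/-- if there is no gadget then `Phi` holds -/
lemma phi_of_no_gadget {Q : Set (Sym2 V)} {B L : Set V} {i : ι} {a : V} (ha : a ∈ X.C i)
    (nQ : ∀ c ∈ X.C i, ∀ e, c ∈ e → e ∉ Q)
    (hno : ¬ ∃ T, X.Gad (Q ∪ sq B) L i T) : X.Phi Q ((L ∪ B) ∪ {x | x ∈ X.C i}) a := by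
  have good : ∀ e, e ∉ Q → (∃ x ∈ e, x ∉ (L ∪ B) ∪ {x | x ∈ X.C i}) →
      e ∉ Q ∪ sq B ∧ ∃ x ∈ e, x ∉ L := by
    rintro e h1 ⟨x, hx, hx2⟩
    simp only [Set.mem_union, not_or] at hx2
    refine ⟨?_, x, hx, hx2.1.1⟩
    rintro (h | h)
    · exact h1 h
    · exact hx2.1.2 (h x hx)
  have mixed : ∀ x, x ∉ (L ∪ B) ∪ {x | x ∈ X.C i} → (∃ c ∈ X.C i, X.D x c) →
      (∃ c ∈ X.C i, X.D c x) → False := by
    intro x hx h1 h2
    have hxC : x ∉ X.C i := fun h => hx (Or.inr h)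
    obtain ⟨c, hc, hxc⟩ := h1
    obtain ⟨d, hd, hdx⟩ := h2
    obtain ⟨T, hv, hp, hu⟩ := cone (X.loc_tour i) (X.loc_dir i) hxC
      ⟨c, hc, X.loc_of hxc (not_mem_of hxC (by simp))⟩
      ⟨d, hd, X.loc_of hdx (not_mem_of hxC (by simp))⟩
    refine hno ⟨T, hp, hv, fun e he heE => ?_⟩
    rcases hu e he with h | ⟨c, hc, rfl⟩
    · exact absurd h heE
    · exact good _ (nQ c hc _ (by simp)) ⟨x, by simp, hx⟩
  intro n p hn hp hpa han hnpQ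
  have hnC : n ∉ X.C i := fun h => hn (Or.inr h)
  have hpC : p ∉ X.C i := fun h => hp (Or.inr h)
  have pall : ∀ c ∈ X.C i, X.D p c := by
    intro c hc
    by_contra h
    have hpc : p ≠ c := by rintro rfl; exact hpC hc
    exact mixed p hp ⟨a, ha, hpa⟩ ⟨c, hc, X.total hpc h⟩
  have nall : ∀ c ∈ X.C i, X.D c n := by
    intro c hc
    by_contra h
    have hcn : c ≠ n := by rintro rfl; exact hnC hc
    exact mixed n hn ⟨c, hc, X.total hcn h⟩ ⟨a, ha, han⟩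
  have hnp : n ≠ p := by rintro rfl; exact X.asymm hpa han
  have locp : ∀ c ∈ X.C i, X.loc i p c := fun c hc => X.loc_of (pall c hc) (not_mem_of hpC (by simp))
  have locn : ∀ c ∈ X.C i, X.loc i c n := fun c hc => X.loc_of (nall c hc) (not_mem_of hnC (by simp))
  have hpn : X.D p n := by
    by_contra h
    have hDnp : X.D n p := X.total (Ne.symm hnp) h
    obtain ⟨T, hv, hpp, hu⟩ := pair (X.loc_tour i) (X.loc_dir i) hnC hpC locp locn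
      (X.loc_of hDnp (not_mem_of hnC (by simp)))
    refine hno ⟨T, hpp, hv, fun e he heE => ?_⟩
    rcases hu e he with h | rfl | ⟨c, hc, rfl | rfl⟩
    · exact absurd h heE
    · exact good _ hnpQ ⟨n, by simp, hn⟩
    · exact good _ (nQ c hc _ (by simp)) ⟨n, by simp, hn⟩
    · exact good _ (nQ c hc _ (by simp)) ⟨p, by simp, hp⟩
  refine ⟨hpn, fun a' h1 h2 h3 h4 => ?_⟩
  obtain ⟨T, hv, hpp, hu⟩ := triple (X.loc_tour i) (X.loc_dir i) hnC hpC locp locn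
      (X.loc_of hpn (not_mem_of hnC (by simp)))
      (X.loc_of h1 (not_mem_of hnC (by simp)))
      (X.loc_of h2 (not_mem_of hpC (by simp)))
  refine hno ⟨T, hpp, hv, fun e he heE => ?_⟩
  rcases hu e he with h | rfl | rfl | rfl | ⟨c, hc, rfl | rfl⟩
  · exact absurd h heE
  · exact good _ hnpQ ⟨n, by simp, hn⟩
  · exact good _ h3 ⟨n, by simp, hn⟩
  · exact good _ h4 ⟨p, by simp, hp⟩
  · exact good _ (nQ c hc _ (by simp)) ⟨n, by simp, hn⟩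
  · exact good _ (nQ c hc _ (by simp)) ⟨p, by simp, hp⟩

/-- unflipped edges keep their initial direction -/
lemma dir_initial {j : ι} {p : V × V} (hp : p ∈ arcs (X.C j))
    (h : ∀ k, k < j → s(p.1, p.2) ∉ E (X.C k)) : X.D p.1 p.2 := by
  have h1 := X.dir j p hp
  have h2 : {k | k < j ∧ s(p.1, p.2) ∈ E (X.C k)} = ∅ := by
    ext k
    simp only [Set.mem_ofPred_eq, Set.mem_empty_iff_false, iff_false, not_and]
    exact h k
  have h3 := h1.2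
  simp only [Set.mem_ofPred_eq, h2, Set.ncard_empty] at h3
  simpa using h3

lemma cut_lemma {Q : Set (Sym2 V)} (hR : X.R Q) {W : Set V}
    (hW : ∀ y y', y ∈ W → X.D y y' → s(y, y') ∉ Q → y' ∈ W) (j : ι)
    (hj : ∀ e ∈ E (X.C j), e ∉ Q) : ∀ p ∈ arcs (X.C j), (p.1 ∈ W ↔ p.2 ∈ W) := by
  induction j using WellFoundedLT.induction with
  | ind j ih =>
  have h1 : ∀ p ∈ arcs (X.C j), p.1 ∈ W → p.2 ∈ W := by
    intro p hp h1
    by_contra h2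
    refine h2 (hW p.1 p.2 h1 ?_ (hj _ ⟨p, hp, rfl⟩))
    apply dir_initial hp
    intro k hk he
    have hk' : ∀ e ∈ E (X.C k), e ∉ Q := fun e he' hQ => hj _ ⟨p, hp, rfl⟩ (hR k e he' _ he hQ)
    obtain ⟨p', hp', he'⟩ := he
    have := ih k hk hk' p' hp'
    rcases Sym2.eq_iff.1 he' with ⟨e1, e2⟩ | ⟨e1, e2⟩
    · rw [← e1, ← e2] at this
      exact h2 (this.1 h1)
    · rw [← e1, ← e2] at this
      exact h2 (this.2 h1)
  intro p hp
  refine ⟨h1 p hp, fun h2 => ?_⟩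
  exact cyc_ind (X.len j) (mem_arcs hp).2 h2 h1 _ (mem_arcs hp).1

theorem lemA {β : Cardinal.{u}} (hβ : ℵ₀ ≤ β) {Q : Set (Sym2 V)} {B : Set V} (h : X.Inv β Q)
    (hB : X.Closed β Q B) : X.Inv β (Q ∪ sq B) := by
  have hR' : X.R (Q ∪ sq B) := R_union h.r hB.p1
  refine ⟨hR', ?_, H_union hβ h.h hB⟩
  intro i hE hV L hL
  have hLB := card_union_le hβ hL hB.card
  by_cases hVQ : ∃ x ∈ X.C i, ∃ e ∈ Q, x ∈ e
  · obtain ⟨T, h1, h2, h3⟩ := h.g i (fun e he hQ => hE e he (Or.inl hQ)) hVQ _ hLB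
    refine ⟨T, h1, h2, fun e he he' => ?_⟩
    obtain ⟨h4, x, hx, hx2⟩ := h3 e he he'
    simp only [Set.mem_union, not_or] at hx2
    refine ⟨?_, x, hx, hx2.1⟩
    rintro (h | h)
    · exact h4 h
    · exact hx2.2 (h x hx)
  by_contra hno
  have nQ : ∀ c ∈ X.C i, ∀ e, c ∈ e → e ∉ Q := fun c hc e he hQ => hVQ ⟨c, hc, e, hQ, he⟩
  obtain ⟨a, ha, haB⟩ : ∃ a ∈ X.C i, a ∈ B := by
    obtain ⟨x, hx, e, he | he, hxe⟩ := hV
    · exact absurd he (nQ x hx e hxe)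
    · exact ⟨x, hx, he x hxe⟩
  have hPhi0 := phi_of_no_gadget ha nQ hno
  have hfin : #{x | x ∈ X.C i} ≤ β :=
    ((List.finite_toSet (X.C i)).lt_aleph0.le).trans hβ
  obtain ⟨Z1, hZ1, hPhi1⟩ := hB.p3 a haB _ (card_union_le hβ hLB hfin) hPhi0
  set Z := insert a Z1 with hZdef
  have hZB : Z ⊆ B := Set.insert_subset haB hZ1
  have haZ : a ∈ Z := Set.mem_insert _ _
  have hPhi : X.Phi Q Z a := fun n p hn hp =>
    hPhi1 n p (fun h => hn (Set.mem_insert_of_mem _ h)) (fun h => hp (Set.mem_insert_of_mem _ h))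
  have hZcard : #Z ≤ β := (mk_le_mk_of_subset hZB).trans hB.card
  set W : Set V := {y | (y ∉ Z ∧ X.D a y) ∨ (y ∈ Z ∧ ∃ n, n ∉ Z ∧ X.D a n ∧ X.D n y ∧
    s(n, y) ∉ Q ∪ sq B)} with hWdef
  have hW : ∀ y y', y ∈ W → X.D y y' → s(y, y') ∉ Q ∪ sq B → y' ∈ W := by
    intro y y' hy hyy hq
    by_cases hy'Z : y' ∈ Z
    · rcases hy with ⟨hyZ, hay⟩ | ⟨hyZ, _⟩
      · exact Or.inr ⟨hy'Z, y, hyZ, hay, hyy, hq⟩
      · exact absurd (Or.inr (mem_sq.2 ⟨hZB hyZ, hZB hy'Z⟩)) hq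
    by_cases hay' : X.D a y'
    · exact Or.inl ⟨hy'Z, hay'⟩
    exfalso
    have hay'ne : a ≠ y' := by rintro rfl; exact hy'Z haZ
    have hy'a : X.D y' a := X.total hay'ne hay'
    have hqQ : s(y, y') ∉ Q := fun h => hq (Or.inl h)
    rcases hy with ⟨hyZ, hay⟩ | ⟨hyZ, n, hnZ, han, hny, hnq⟩
    · exact X.asymm hyy (hPhi y y' hyZ hy'Z hy'a hay hqQ).1
    · have hnqQ : s(n, y) ∉ Q := fun h => hnq (Or.inl h)
      by_cases hnp : s(n, y') ∈ Q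
      · obtain ⟨x, hx, h1, h2, h3, h4⟩ := h.h n y y' hnp hny hyy hnqQ hqQ Z hZcard
        have hxa : a ≠ x := by rintro rfl; exact hx haZ
        by_cases hax : X.D a x
        · exact X.asymm h2 (hPhi x y' hx hy'Z hy'a hax h4).1
        · have hxa' := X.total hxa hax
          exact X.asymm h1 (hPhi n x hnZ hx hxa' han h3).1
      · exact (hPhi n y' hnZ hy'Z hy'a han hnp).2 y hny hyy hnqQ hqQ
  have fin : ∀ j, (∀ e ∈ E (X.C j), e ∉ Q ∪ sq B) → a ∉ X.C j := by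
    intro j
    induction j using WellFoundedLT.induction with
    | ind j ih =>
    intro hj haj
    have hcut := cut_lemma hR' hW j hj
    have hinit : ∀ p ∈ arcs (X.C j), a ∈ s(p.1, p.2) → X.D p.1 p.2 := by
      intro p hp hap
      apply dir_initial hp
      intro k hk he
      have hk' : ∀ e ∈ E (X.C k), e ∉ Q ∪ sq B :=
        fun e he' hQ => hj _ ⟨p, hp, rfl⟩ (hR' k e he' _ he hQ)
      exact ih k hk hk' (mem_of_E he hap)
    by_cases haW : a ∈ W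
    · obtain ⟨y, hy⟩ := exists_pred (X.len j) haj
      have h1 : X.D y a := hinit _ hy (by simp)
      have h2 : y ∈ W := (hcut _ hy).2 haW
      have h3 : y ∉ B := fun h => hj _ ⟨_, hy, rfl⟩ (Or.inr (mem_sq.2 ⟨h, haB⟩))
      rcases h2 with ⟨_, h4⟩ | ⟨h4, _⟩
      · exact X.asymm h1 h4
      · exact h3 (hZB h4)
    · obtain ⟨y, hy⟩ := exists_succ (X.len j) haj
      have h1 : X.D a y := hinit _ hy (by simp)
      have h3 : y ∉ B := fun h => hj _ ⟨_, hy, rfl⟩ (Or.inr (mem_sq.2 ⟨haB, h⟩))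
      have h4 : y ∈ W := Or.inl ⟨fun h => h3 (hZB h), h1⟩
      exact haW ((hcut _ hy).2 h4)
  exact fin i hE ha

end Ctx

end Pool.Agent.R48.CR
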