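import Pool.Agent.R48.CR.C

open Set Cardinal

namespace Pool.Agent.R48.CR

universe u

lemma lexpair {ι : Type u} (g t : ι → Ordinal.{u}) : ∃ ρ : ι → Ordinal.{u}, ∀ i j,
    ρ i < ρ j ↔ g i < g j ∨ (g i = g j ∧ t i < t j) := by
  set M : Ordinal.{u} := ⨆ i, Order.succ (t i) with hM
  have hlt : ∀ i, t i < M := fun i =>
    (Order.lt_succ (t i)).trans_le (Ordinal.le_iSup (fun i => Order.succ (t i)) i)
  have h1 : ∀ i j, g i < g j → M * g i + t i < M * g j + t j := by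
    intro i j h
    have h2 : M * g i + t i < M * g i + M := by gcongr; exact hlt i
    have h3 : M * g i + M = M * Order.succ (g i) := by rw [Ordinal.mul_succ]
    have h4 : M * Order.succ (g i) ≤ M * g j := by
      gcongr; exact Order.succ_le_of_lt h
    calc M * g i + t i < M * g i + M := h2
      _ = M * Order.succ (g i) := h3
      _ ≤ M * g j := h4
      _ ≤ M * g j + t j := le_self_add
  refine ⟨fun i => M * g i + t i, fun i j => ?_⟩
  constructor
  · intro h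
    rcases lt_trichotomy (g i) (g j) with h2 | h2 | h2
    · exact Or.inl h2
    · refine Or.inr ⟨h2, ?_⟩
      simp only [h2] at h
      exact (add_lt_add_iff_left _).1 h
    · exact absurd (h.trans (h1 j i h2)) (lt_irrefl _)
  · rintro (h | ⟨h2, h3⟩)
    · exact h1 i j h
    · simp only [h2]
      gcongr

namespace Ctx

variable {V ι : Type u} [LinearOrder ι] [WellFoundedLT ι] (X : Ctx V ι)

def J (A : Set V) (Q : Set (Sym2 V)) : Set ι := {i | (∀ x ∈ X.C i, x ∈ A) ∧ ∀ e ∈ E (X.C i), e ∉ Q}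

structure Proc (A : Set V) (Q : Set (Sym2 V)) (ρ : ι → Ordinal.{u}) (T : ι → List (List V)) :
    Prop where
  inj : ∀ i ∈ X.J A Q, ∀ j ∈ X.J A Q, ρ i = ρ j → i = j
  compat : ∀ i ∈ X.J A Q, ∀ j ∈ X.J A Q, i < j → (∃ e, e ∈ E (X.C i) ∧ e ∈ E (X.C j)) → ρ i < ρ j
  t1 : ∀ i ∈ X.J A Q, ∀ e ∈ used (T i), e ∈ sq A ∧ e ∉ Q
  t2 : ∀ e, {i | i ∈ X.J A Q ∧ e ∈ used (T i)}.Finite
  pr : ∀ i ∈ X.J A Q, par (T i) = E (X.C i)
  t3 : ∀ i ∈ X.J A Q, ∀ F : Set (Sym2 V), (∀ e, e ∈ sq A → e ∉ Q →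
    (e ∈ F ↔ Odd (Set.ncard {j | j ∈ X.J A Q ∧ ρ j < ρ i ∧ e ∈ E (X.C j)}))) →
      valid (fl X.D F) (T i)

def SS (lam : Cardinal.{u}) : Prop := ∀ Q, X.Inv lam Q → ∀ f : Finset V → Set V,
  (∀ s, #(f s) ≤ lam) → ∃ A : Set V, #A ≤ lam ∧ (∀ s : Finset V, (s : Set V) ⊆ A → f s ⊆ A) ∧
    X.P1 A ∧ ∃ ρ T, X.Proc A Q ρ T

variable {X}

lemma J_closed {A : Set V} {Q : Set (Sym2 V)} (hR : X.R Q) (hA : X.P1 A) {i j : ι}
    (hi : i ∈ X.J A Q) {e : Sym2 V} (h1 : e ∈ E (X.C i)) (h2 : e ∈ E (X.C j)) : j ∈ X.J A Q := by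
  refine ⟨hA j e h2 (fun x hx => hi.1 x (mem_of_E h1 hx)), fun e' he' hQ => ?_⟩
  exact hi.2 e h1 (hR j e' he' e h2 hQ)

lemma E_nonempty (X : Ctx V ι) (i : ι) : ∃ e, e ∈ E (X.C i) := by
  have h := X.len i
  have : ∃ c, c ∈ X.C i := by
    rcases hc : X.C i with _ | ⟨c, l⟩
    · rw [hc] at h; simp at h
    · exact ⟨c, by simp⟩
  obtain ⟨c, hc⟩ := this
  obtain ⟨d, hd⟩ := exists_succ h hc
  exact ⟨_, _, hd, rfl⟩

lemma pred_eq {A : Set V} {Q : Set (Sym2 V)} (hR : X.R Q) (hA : X.P1 A) {ρ : ι → Ordinal.{u}}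
    (compat : ∀ i ∈ X.J A Q, ∀ j ∈ X.J A Q, i < j → (∃ e, e ∈ E (X.C i) ∧ e ∈ E (X.C j)) →
      ρ i < ρ j) {i : ι} (hi : i ∈ X.J A Q) {e : Sym2 V} (he : e ∈ E (X.C i)) :
    {j | j ∈ X.J A Q ∧ ρ j < ρ i ∧ e ∈ E (X.C j)} = {j | j < i ∧ e ∈ E (X.C j)} := by
  ext j
  simp only [Set.mem_ofPred_eq]
  constructor
  · rintro ⟨h1, h2, h3⟩
    refine ⟨?_, h3⟩
    rcases lt_trichotomy i j with h | h | h
    · exact absurd (h2.trans (compat i hi j h1 h ⟨e, he, h3⟩)) (lt_irrefl _)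
    · subst h; exact absurd h2 (lt_irrefl _)
    · exact h
  · rintro ⟨h1, h2⟩
    have hj := J_closed hR hA hi he h2
    exact ⟨hj, compat j hj i hi h1 ⟨e, h2, he⟩, h2⟩

/-- dependence relation -/
def dep (X : Ctx V ι) (j i : ι) : Prop := j < i ∧ ∃ e, e ∈ E (X.C j) ∧ e ∈ E (X.C i)

lemma dep_finite (X : Ctx V ι) (i : ι) : {j | Relation.ReflTransGen X.dep j i}.Finite := by
  induction i using WellFoundedLT.induction with
  | ind i ih =>
  have h1 : {j | X.dep j i}.Finite := by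
    have : {j | X.dep j i} ⊆ ⋃ e ∈ E (X.C i), {j | e ∈ E (X.C j)} := by
      rintro j ⟨_, e, h1, h2⟩
      simp only [Set.mem_iUnion]
      exact ⟨e, h2, h1⟩
    exact ((E_finite _).biUnion (fun e _ => X.lf e)).subset this
  have h2 : {j | Relation.ReflTransGen X.dep j i} ⊆
      {i} ∪ ⋃ k ∈ {k | X.dep k i}, {j | Relation.ReflTransGen X.dep j k} := by
    intro j hj
    rcases (Relation.ReflTransGen.cases_tail_iff _ _ _).1 hj with h | ⟨k, h3, h4⟩
    · exact Or.inl h.symm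
    · right
      simp only [Set.mem_iUnion]
      exact ⟨k, h4, h3⟩
  exact ((Set.finite_singleton i).union (h1.biUnion (fun k hk => ih k hk.1))).subset h2

lemma exists_closure {F : Finset V → Set V} (hF : ∀ s, (F s).Countable) :
    ∃ A : Set V, A.Countable ∧ ∀ s : Finset V, (s : Set V) ⊆ A → F s ⊆ A := by
  classical
  let step : Set V → Set V := fun A => A ∪ ⋃ s ∈ {s : Finset V | (s : Set V) ⊆ A}, F s
  have hstep : ∀ A : Set V, A.Countable → (step A).Countable := by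
    intro A hA
    refine hA.union (Set.Countable.biUnion ?_ (fun s _ => hF s))
    have h1 := Set.countable_ofPred_finite_subset hA
    have h2 : {s : Finset V | (s : Set V) ⊆ A} =
        (fun s : Finset V => (s : Set V)) ⁻¹' {t | t.Finite ∧ t ⊆ A} := by
      ext s
      simp
    rw [h2]
    exact h1.preimage_of_injOn (Finset.coe_injective.injOn)
  let B : ℕ → Set V := fun n => step^[n] ∅
  have hB0 : ∀ n, (B n).Countable := by
    intro n
    induction n with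
    | zero => exact Set.countable_empty
    | succ n ih =>
      have : B (n+1) = step (B n) := Function.iterate_succ_apply' _ _ _
      rw [this]; exact hstep _ ih
  have hBs : ∀ n, B (n+1) = step (B n) := fun n => Function.iterate_succ_apply' _ _ _
  have hmono : Monotone B := monotone_nat_of_le_succ (fun n => by
    rw [hBs]; exact Set.subset_union_left)
  refine ⟨⋃ n, B n, Set.countable_iUnion hB0, fun s hs => ?_⟩
  have : ∃ n, (s : Set V) ⊆ B n := by
    induction s using Finset.induction with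
    | empty => exact ⟨0, by simp⟩
    | insert a s _ ih =>
      rw [Finset.coe_insert, Set.insert_subset_iff] at hs
      obtain ⟨n, hn⟩ := ih hs.2
      obtain ⟨m, hm⟩ := Set.mem_iUnion.1 hs.1
      refine ⟨max n m, ?_⟩
      rw [Finset.coe_insert, Set.insert_subset_iff]
      exact ⟨hmono (le_max_right _ _) hm, hn.trans (hmono (le_max_left _ _))⟩
  obtain ⟨n, hn⟩ := this
  refine Set.Subset.trans ?_ (Set.subset_iUnion B (n+1))
  rw [hBs]
  intro x hx
  right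
  simp only [Set.mem_iUnion]
  exact ⟨s, hn, hx⟩

lemma inside_finite (X : Ctx V ι) {B : Set V} (hB : B.Finite) :
    {i | ∀ x ∈ X.C i, x ∈ B}.Finite := by
  have h1 : (B ×ˢ B).Finite := hB.prod hB
  have h2 : {i | ∀ x ∈ X.C i, x ∈ B} ⊆ ⋃ p ∈ B ×ˢ B, {i | s(p.1, p.2) ∈ E (X.C i)} := by
    intro i hi
    obtain ⟨e, p, hp, rfl⟩ := X.E_nonempty i
    simp only [Set.mem_iUnion]
    exact ⟨p, ⟨hi _ (mem_arcs hp).1, hi _ (mem_arcs hp).2⟩, p, hp, rfl⟩
  exact (h1.biUnion (fun p _ => X.lf _)).subset h2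

lemma inside_countable (X : Ctx V ι) {B : Set V} (hB : B.Countable) :
    {i | ∀ x ∈ X.C i, x ∈ B}.Countable := by
  have h1 : (B ×ˢ B).Countable := hB.prod hB
  have h2 : {i | ∀ x ∈ X.C i, x ∈ B} ⊆ ⋃ p ∈ B ×ˢ B, {i | s(p.1, p.2) ∈ E (X.C i)} := by
    intro i hi
    obtain ⟨e, p, hp, rfl⟩ := X.E_nonempty i
    simp only [Set.mem_iUnion]
    exact ⟨p, ⟨hi _ (mem_arcs hp).1, hi _ (mem_arcs hp).2⟩, p, hp, rfl⟩
  exact (h1.biUnion (fun p _ => (X.lf _).countable)).mono h2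

lemma edge_finite (X : Ctx V ι) (s : Finset V) :
    {i | ∃ e ∈ E (X.C i), e ∈ sq (s : Set V)}.Finite := by
  have h1 : ((s : Set V) ×ˢ (s : Set V)).Finite := s.finite_toSet.prod s.finite_toSet
  have h2 : {i | ∃ e ∈ E (X.C i), e ∈ sq (s : Set V)} ⊆
      ⋃ p ∈ (s : Set V) ×ˢ (s : Set V), {i | s(p.1, p.2) ∈ E (X.C i)} := by
    rintro i ⟨e, ⟨p, hp, rfl⟩, he⟩
    have := mem_sq.1 he
    simp only [Set.mem_iUnion]
    exact ⟨p, ⟨this.1, this.2⟩, p, hp, rfl⟩
  exact (h1.biUnion (fun p _ => X.lf _)).subset h2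

/-- the vertices of the used edges -/
def vts (T : List (List V)) : Set V := {x | ∃ e ∈ used T, x ∈ e}

lemma vts_finite (T : List (List V)) : (vts T).Finite := by
  have h : vts T ⊆ ⋃ t ∈ {t | t ∈ T}, {x | x ∈ t} := by
    rintro x ⟨e, ⟨t, ht, he⟩, hx⟩
    simp only [Set.mem_iUnion]
    exact ⟨t, ht, mem_of_E he hx⟩
  exact ((List.finite_toSet T).biUnion (fun t _ => List.finite_toSet t)).subset h

end Ctx

end Pool.Agent.R48.CR
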