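import Pool.Agent.R48.CR.Dd

open Set Cardinal

namespace Pool.Agent.R48.CR

universe u

namespace Ctx

variable {V ι : Type u} [LinearOrder ι] [WellFoundedLT ι]

theorem base (X : Ctx V ι) : X.SS ℵ₀ := by
  classical
  intro Q hI f hf
  let Mt : ι → Prop := fun i => (∀ e ∈ E (X.C i), e ∉ Q) ∧ ∃ x ∈ X.C i, ∃ e ∈ Q, x ∈ e
  have hgad : ∀ i (s : Finset V), ∃ T, Mt i → X.Gad Q (s : Set V) i T := by
    intro i s
    by_cases h : Mt i
    · obtain ⟨T, hT⟩ := hI.g i h.1 h.2 (s : Set V) (s.finite_toSet.lt_aleph0.le)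
      exact ⟨T, fun _ => hT⟩
    · exact ⟨[], fun h' => absurd h' h⟩
  choose gad hgad using hgad
  let F : Finset V → Set V := fun s => f s ∪
    ⋃ i ∈ {i | ∃ e ∈ E (X.C i), e ∈ sq (s : Set V)}, ({x | x ∈ X.C i} ∪ vts (gad i s))
  have hF : ∀ s, (F s).Countable := by
    intro s
    refine Set.Countable.union (by simpa using hf s) ?_
    refine Set.Countable.biUnion (X.edge_finite s).countable (fun i _ => ?_)
    exact ((List.finite_toSet _).union (vts_finite _)).countable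
  obtain ⟨A, hAc, hA⟩ := exists_closure hF
  have hAf : ∀ s : Finset V, (s : Set V) ⊆ A → f s ⊆ A := fun s hs =>
    Set.subset_union_left.trans (hA s hs)
  have hAg : ∀ s : Finset V, (s : Set V) ⊆ A → ∀ i, (∃ e ∈ E (X.C i), e ∈ sq (s : Set V)) →
      ∀ x, (x ∈ X.C i ∨ x ∈ vts (gad i s)) → x ∈ A := by
    intro s hs i hi x hx
    apply hA s hs
    right
    simp only [Set.mem_iUnion]
    exact ⟨i, hi, hx⟩
  have hP1 : X.P1 A := by
    rintro i e he hes x hx
    obtain ⟨p, hp, rfl⟩ := he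
    have h1 := mem_sq.1 hes
    refine hAg {p.1, p.2} ?_ i ⟨_, ⟨p, hp, rfl⟩, ?_⟩ x (Or.inl hx)
    · intro y hy
      simp only [Finset.coe_insert, Finset.coe_singleton, Set.mem_insert_iff,
        Set.mem_singleton_iff] at hy
      rcases hy with rfl | rfl
      · exact h1.1
      · exact h1.2
    · exact mem_sq.2 ⟨by simp, by simp⟩
  have hR := hI.r
  -- countability
  have hJc : (X.J A Q).Countable := (X.inside_countable hAc).mono (fun i hi => hi.1)
  obtain ⟨ν, hν⟩ := Set.countable_iff_exists_injOn.1 hJc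
  obtain ⟨idx, hidx⟩ := Set.countable_iff_exists_injOn.1 hAc
  let m : ι → ℕ := fun i => (X.dep_finite i).toFinset.sup ν
  have hνm : ∀ i, ν i ≤ m i := by
    intro i
    apply Finset.le_sup (f := ν)
    rw [Set.Finite.mem_toFinset]
    exact Relation.ReflTransGen.refl
  have hmm : ∀ i j, X.dep i j → m i ≤ m j := by
    intro i j h
    apply Finset.sup_mono
    intro k hk
    rw [Set.Finite.mem_toFinset] at hk ⊢
    exact Relation.ReflTransGen.tail hk h
  obtain ⟨ρ, hρ⟩ := lexpair (fun i => ((m i : ℕ) : Ordinal.{u}))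
    (fun i => Ordinal.typein (· < · : ι → ι → Prop) i)
  have hρ' : ∀ i j, ρ i < ρ j ↔ m i < m j ∨ (m i = m j ∧ i < j) := by
    intro i j
    rw [hρ]
    simp only [Nat.cast_lt, Nat.cast_inj, Ordinal.typein_lt_typein]
  have hρm : ∀ i j, ρ i ≤ ρ j → m i ≤ m j := by
    intro i j h
    by_contra h2
    push Not at h2
    exact absurd ((hρ' j i).2 (Or.inl h2)) (not_lt.2 h)
  have hinj : ∀ i j, ρ i = ρ j → i = j := by
    intro i j h
    have h1 : ¬ (m i < m j ∨ (m i = m j ∧ i < j)) := by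
      rw [← hρ', h]; exact lt_irrefl _
    have h2 : ¬ (m j < m i ∨ (m j = m i ∧ j < i)) := by
      rw [← hρ', h]; exact lt_irrefl _
    rcases lt_trichotomy i j with h3 | h3 | h3
    · exfalso
      rcases lt_trichotomy (m i) (m j) with h4 | h4 | h4 <;> tauto
    · exact h3
    · exfalso
      rcases lt_trichotomy (m i) (m j) with h4 | h4 | h4
      · tauto
      · exact h2 (Or.inr ⟨h4.symm, h3⟩)
      · tauto
  have compat : ∀ i ∈ X.J A Q, ∀ j ∈ X.J A Q, i < j → (∃ e, e ∈ E (X.C i) ∧ e ∈ E (X.C j)) →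
      ρ i < ρ j := by
    intro i _ j _ hij he
    rw [hρ']
    rcases (hmm i j ⟨hij, he⟩).lt_or_eq with h | h
    · exact Or.inl h
    · exact Or.inr ⟨h, hij⟩
  have hνfin : ∀ K : ℕ, {j | j ∈ X.J A Q ∧ ν j ≤ K}.Finite := by
    intro K
    have h1 : (ν '' {j | j ∈ X.J A Q ∧ ν j ≤ K}).Finite := by
      refine (Set.finite_Iic K).subset ?_
      rintro _ ⟨j, ⟨_, hj⟩, rfl⟩
      exact hj
    exact Set.Finite.of_finite_image h1 (hν.mono (fun j hj => hj.1))
  have hAfin : ∀ K : ℕ, {x | x ∈ A ∧ idx x ≤ K}.Finite := by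
    intro K
    have h1 : (idx '' {x | x ∈ A ∧ idx x ≤ K}).Finite := by
      refine (Set.finite_Iic K).subset ?_
      rintro _ ⟨j, ⟨_, hj⟩, rfl⟩
      exact hj
    exact Set.Finite.of_finite_image h1 (hidx.mono (fun j hj => hj.1))
  let S : ι → Set V := fun i => {x | x ∈ A ∧ idx x ≤ ν i} ∪
    ⋃ j ∈ {j | j ∈ X.J A Q ∧ ρ j ≤ ρ i}, {x | x ∈ X.C j}
  have hSfin : ∀ i, (S i).Finite := by
    intro i
    refine (hAfin _).union (Set.Finite.biUnion ?_ (fun j _ => List.finite_toSet _))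
    refine (hνfin (m i)).subset ?_
    rintro j ⟨h1, h2⟩
    exact ⟨h1, (hνm j).trans (hρm j i h2)⟩
  have hSA : ∀ i, S i ⊆ A := by
    intro i x hx
    rcases hx with hx | hx
    · exact hx.1
    · simp only [Set.mem_iUnion] at hx
      obtain ⟨j, hj, hx⟩ := hx
      exact hj.1.1 x hx
  have hSC : ∀ i, i ∈ X.J A Q → ∀ j ∈ X.J A Q, ρ j ≤ ρ i → ∀ x ∈ X.C j, x ∈ S i := by
    intro i hi j hj hji x hx
    right
    simp only [Set.mem_iUnion]
    exact ⟨j, ⟨hj, hji⟩, hx⟩
  let sF : ι → Finset V := fun i => (hSfin i).toFinset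
  have hsF : ∀ i, (sF i : Set V) = S i := fun i => Set.Finite.coe_toFinset _
  -- the fans
  have hfan : ∀ i, ∃ T, i ∈ X.J A Q →
      (valid (fl X.D {e | Odd (Set.ncard {j | j ∈ X.J A Q ∧ ρ j < ρ i ∧ e ∈ E (X.C j)})}) T ∧
      par T = E (X.C i) ∧ ∃ v ∈ X.C i, (∀ y ∈ X.C i, idx y ≤ idx v) ∧
        ∀ e ∈ used T, e ∈ E (X.C i) ∨ ∃ c ∈ X.C i, e = s(v, c)) := by
    intro i
    by_cases hi : i ∈ X.J A Q
    · have hne : (X.C i).toFinset.Nonempty := by
        obtain ⟨e, p, hp, _⟩ := X.E_nonempty i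
        exact ⟨p.1, by simpa using (mem_arcs hp).1⟩
      obtain ⟨v, hv, hmax⟩ := Finset.exists_max_image _ idx hne
      have hd : IsDCycle (fl X.D {e | Odd (Set.ncard {j | j ∈ X.J A Q ∧ ρ j < ρ i ∧
          e ∈ E (X.C j)})}) (X.C i) := by
        refine ⟨X.nd i, X.len i, fun p hp => ?_⟩
        have h1 := X.dir i p hp
        refine ⟨h1.1, ?_⟩
        have h2 := h1.2
        have he : s(p.1, p.2) ∈ E (X.C i) := ⟨p, hp, rfl⟩
        simp only [Set.mem_ofPred_eq] at h2 ⊢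
        rw [pred_eq hR hP1 compat hi he]
        exact h2
      obtain ⟨T, h1, h2, h3⟩ := fan' (tour_fl X.tD _) hd (List.mem_toFinset.1 hv)
      exact ⟨T, fun _ => ⟨h1, h2, v, List.mem_toFinset.1 hv,
        fun y hy => hmax y (List.mem_toFinset.2 hy), h3⟩⟩
    · exact ⟨[], fun h => absurd h hi⟩
  choose fanT hfan using hfan
  let T : ι → List (List V) := fun i => if Mt i then gad i (sF i) else fanT i
  have hT1 : ∀ i, Mt i → T i = gad i (sF i) := fun i h => if_pos h
  have hT2 : ∀ i, ¬ Mt i → T i = fanT i := fun i h => if_neg h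
  have hgs : ∀ i ∈ X.J A Q, ∀ x ∈ vts (gad i (sF i)), x ∈ A := by
    intro i hi x hx
    obtain ⟨e, he⟩ := X.E_nonempty i
    refine hAg (sF i) (by rw [hsF]; exact hSA i) i ⟨e, he, ?_⟩ x (Or.inr hx)
    intro y hy
    rw [hsF]
    exact hSC i hi i hi le_rfl y (mem_of_E he hy)
  refine ⟨A, by simpa using hAc, hAf, hP1, ρ, T, ?_⟩
  refine ⟨fun i _ j _ h => hinj i j h, compat, ?_, ?_, ?_, ?_⟩
  · -- t1
    intro i hi e he
    by_cases hM : Mt i
    · rw [hT1 i hM] at he
      refine ⟨fun x hx => hgs i hi x ⟨e, he, hx⟩, ?_⟩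
      by_cases heE : e ∈ E (X.C i)
      · exact hi.2 e heE
      · exact ((hgad i (sF i) hM).2.2 e he heE).1
    · rw [hT2 i hM] at he
      obtain ⟨_, _, v, hv, _, h4⟩ := hfan i hi
      rcases h4 e he with h5 | ⟨c, hc, rfl⟩
      · exact ⟨fun x hx => hi.1 x (mem_of_E h5 hx), hi.2 e h5⟩
      · refine ⟨mem_sq.2 ⟨hi.1 v hv, hi.1 c hc⟩, fun hQ => hM ⟨hi.2, v, hv, _, hQ, by simp⟩⟩
  · -- t2
    intro e
    induction e using Sym2.ind with
    | _ a b =>
    set K := max (idx a) (idx b) with hK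
    have hsub : {i | i ∈ X.J A Q ∧ s(a, b) ∈ used (T i)} ⊆
        {i | s(a, b) ∈ E (X.C i)} ∪ ({i | i ∈ X.J A Q ∧ ν i ≤ K} ∪
          {i | ∀ x ∈ X.C i, x ∈ {x | x ∈ A ∧ idx x ≤ K}}) := by
      rintro i ⟨hi, he⟩
      by_cases heE : s(a, b) ∈ E (X.C i)
      · exact Or.inl heE
      right
      by_cases hM : Mt i
      · left
        rw [hT1 i hM] at he
        obtain ⟨_, x, hx, hxS⟩ := (hgad i (sF i) hM).2.2 _ he heE
        refine ⟨hi, ?_⟩
        have hxA : x ∈ A := hgs i hi x ⟨_, he, hx⟩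
        rw [hsF] at hxS
        have h1 : ν i < idx x := by
          by_contra h
          exact hxS (Or.inl ⟨hxA, not_lt.1 h⟩)
        rcases Sym2.mem_iff.1 hx with rfl | rfl
        · exact h1.le.trans (le_max_left _ _)
        · exact h1.le.trans (le_max_right _ _)
      · right
        rw [hT2 i hM] at he
        obtain ⟨_, _, v, hv, hmax, h4⟩ := hfan i hi
        rcases h4 _ he with h5 | ⟨c, hc, h5⟩
        · exact absurd h5 heE
        · intro x hx
          refine ⟨hi.1 x hx, (hmax x hx).trans ?_⟩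
          have : v ∈ s(a, b) := by rw [h5]; simp
          rcases Sym2.mem_iff.1 this with h | h
          · rw [h]; exact le_max_left _ _
          · rw [h]; exact le_max_right _ _
    exact ((X.lf _).union ((hνfin K).union (X.inside_finite (hAfin K)))).subset hsub
  · -- pr
    intro i hi
    by_cases hM : Mt i
    · rw [hT1 i hM]; exact (hgad i (sF i) hM).1
    · rw [hT2 i hM]; exact (hfan i hi).2.1
  · -- t3
    intro i hi G hG
    by_cases hM : Mt i
    · rw [hT1 i hM]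
      obtain ⟨h1, h2, h3⟩ := hgad i (sF i) hM
      refine valid_congr ?_ h2
      intro a b hab
      have hsqA : s(a, b) ∈ sq A := fun x hx => hgs i hi x ⟨_, hab, hx⟩
      have key : s(a, b) ∈ X.pre i ∩ E (X.C i) ↔ s(a, b) ∈ G := by
        by_cases heE : s(a, b) ∈ E (X.C i)
        · rw [hG _ hsqA (hi.2 _ heE), pred_eq hR hP1 compat hi heE]
          simp [heE, pre]
        · obtain ⟨h4, x, hx, hxS⟩ := h3 _ hab heE
          rw [hG _ hsqA h4]
          have : {j | j ∈ X.J A Q ∧ ρ j < ρ i ∧ s(a, b) ∈ E (X.C j)} = ∅ := by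
            ext j
            simp only [Set.mem_ofPred_eq, Set.mem_empty_iff_false, iff_false]
            rintro ⟨h5, h6, h7⟩
            apply hxS
            rw [hsF]
            exact hSC i hi j h5 h6.le x (mem_of_E h7 hx)
          rw [this, Set.ncard_empty]
          simp [heE]
      unfold loc fl
      rw [key]
    · rw [hT2 i hM]
      obtain ⟨h1, h2, v, hv, _, h4⟩ := hfan i hi
      refine valid_congr ?_ h1
      intro a b hab
      have hsqA : s(a, b) ∈ sq A ∧ s(a, b) ∉ Q := by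
        rcases h4 _ hab with h5 | ⟨c, hc, h5⟩
        · exact ⟨fun x hx => hi.1 x (mem_of_E h5 hx), hi.2 _ h5⟩
        · rw [h5]
          refine ⟨mem_sq.2 ⟨hi.1 v hv, hi.1 c hc⟩, fun hQ => hM ⟨hi.2, v, hv, _, hQ, by simp⟩⟩
      have key := hG _ hsqA.1 hsqA.2
      unfold fl
      rw [key]
      rfl

end Ctx

end Pool.Agent.R48.CR
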