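import Pool.Agent.R48.CR.Ee

open Set Cardinal Ordinal

namespace Pool.Agent.R48.CR

universe u

section enumeration

variable {V : Type u}

lemma exists_idx (W : Set V) : ∃ idx : V → Ordinal.{u}, Set.InjOn idx W ∧
    ∀ x ∈ W, idx x < (#W).ord := by
  classical
  obtain ⟨r, wo, h⟩ := Cardinal.ord_eq W
  refine ⟨fun x => if hx : x ∈ W then Ordinal.typein r ⟨x, hx⟩ else 0, ?_, ?_⟩
  · intro x hx y hy hxy
    simp only [hx, hy, dif_pos] at hxy
    have := (Ordinal.typein_inj r).1 hxy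
    exact congrArg Subtype.val this
  · intro x hx
    simp only [hx, dif_pos]
    rw [h]
    exact Ordinal.typein_lt_type r _

noncomputable def idx (W : Set V) : V → Ordinal.{u} := (exists_idx W).choose

lemma idx_inj (W : Set V) : Set.InjOn (idx W) W := (exists_idx W).choose_spec.1

lemma idx_lt (W : Set V) : ∀ x ∈ W, idx W x < (#W).ord := (exists_idx W).choose_spec.2

def trunc (W : Set V) (δ : Ordinal.{u}) : Set V := {x | x ∈ W ∧ idx W x < δ}

lemma trunc_card (W : Set V) (δ : Ordinal.{u}) : #(trunc W δ) ≤ δ.card := by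
  rw [← Cardinal.mk_toType δ]
  refine Cardinal.mk_le_of_injective (f := fun x : trunc W δ => Ordinal.ToType.mk ⟨idx W x.1, x.2.2⟩) ?_
  intro x y hxy
  have h1 := Ordinal.ToType.mk.injective hxy
  have h2 := Subtype.mk.inj h1
  exact Subtype.ext (idx_inj W x.2.1 y.2.1 h2)

lemma card_iUnion_lt {β : Cardinal.{u}} (hβ : ℵ₀ ≤ β) {γ : Ordinal.{u}} (hγ : γ.card ≤ β)
    {S : Ordinal.{u} → Set V} (hS : ∀ δ < γ, #(S δ) ≤ β) : #(⋃ δ, ⋃ (_ : δ < γ), S δ : Set V) ≤ β := by
  have h1 : (⋃ δ, ⋃ (_ : δ < γ), S δ : Set V) =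
      ⋃ t : γ.ToType, S (Ordinal.ToType.mk.symm t).1 := by
    ext x
    simp only [Set.mem_iUnion]
    constructor
    · rintro ⟨δ, hδ, hx⟩
      refine ⟨Ordinal.ToType.mk ⟨δ, hδ⟩, ?_⟩
      simpa using hx
    · rintro ⟨t, hx⟩
      exact ⟨_, (Ordinal.ToType.mk.symm t).2, hx⟩
  rw [h1]
  refine (Cardinal.mk_iUnion_le _).trans ?_
  have h2 : (⨆ t : γ.ToType, #(S (Ordinal.ToType.mk.symm t).1)) ≤ β := by
    apply ciSup_le'
    intro t
    exact hS _ (Ordinal.ToType.mk.symm t).2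
  calc #γ.ToType * _ ≤ β * β := by
        apply mul_le_mul' _ h2
        rw [Cardinal.mk_toType]; exact hγ
    _ = β := Cardinal.mul_eq_self hβ

lemma card_biUnion_fin {α : Type u} {β : Cardinal.{u}} (hβ : ℵ₀ ≤ β) {I : Set α} (hI : I.Finite)
    {S : α → Set V} (hS : ∀ i ∈ I, #(S i) ≤ β) : #(⋃ i ∈ I, S i : Set V) ≤ β := by
  refine (Cardinal.mk_biUnion_le S I).trans ?_
  have h2 : (⨆ t : I, #(S t.1)) ≤ β := by
    apply ciSup_le'
    intro t
    exact hS _ t.2
  calc #I * _ ≤ β * β := by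
        apply mul_le_mul' _ h2
        exact (hI.lt_aleph0.le).trans hβ
    _ = β := Cardinal.mul_eq_self hβ

end enumeration

/-- the cardinal attached to a stage -/
noncomputable def bt (δ : Ordinal.{u}) : Cardinal.{u} := max δ.card ℵ₀

lemma bt_inf (δ : Ordinal.{u}) : ℵ₀ ≤ bt δ := le_max_right _ _

lemma bt_mono {δ γ : Ordinal.{u}} (h : δ ≤ γ) : bt δ ≤ bt γ :=
  max_le_max (Ordinal.card_le_card h) le_rfl

lemma bt_card (δ : Ordinal.{u}) : (max δ ω).card ≤ bt δ := by
  rcases le_total δ ω with h | h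
  · rw [max_eq_right h, Ordinal.card_omega0]; exact bt_inf δ
  · rw [max_eq_left h]; exact le_max_left _ _

lemma stage {γ e δ0 : Ordinal.{u}} (h0 : δ0 < γ) (he : e < (bt γ).ord) :
    ∃ δ, δ0 ≤ δ ∧ δ < γ ∧ e < max δ ω := by
  by_cases hω : e < ω
  · exact ⟨δ0, le_rfl, h0, lt_max_of_lt_right hω⟩
  push Not at hω
  have h1 : e.card < bt γ := Cardinal.lt_ord.1 he
  have h2 : ℵ₀ ≤ e.card := by
    rw [← Ordinal.card_omega0]
    exact Ordinal.card_le_card hω
  have h3 : e.card < γ.card := by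
    rcases lt_max_iff.1 h1 with h | h
    · exact h
    · exact absurd (h.trans_le h2) (lt_irrefl _)
  have h4 : (Order.succ e).card < γ.card := by
    rw [Ordinal.card_succ, Cardinal.add_one_eq h2]
    exact h3
  have h5 : Order.succ e < γ := by
    by_contra h
    exact absurd (Ordinal.card_le_card (not_lt.1 h)) (not_le.2 h4)
  refine ⟨max δ0 (Order.succ e), le_max_left _ _, max_lt h0 h5, ?_⟩
  exact lt_max_of_lt_left (lt_max_of_lt_right (Order.lt_succ e))

end Pool.Agent.R48.CR
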