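import Pool.Agent.R48.CR.Ff

open Set Cardinal Ordinal

namespace Pool.Agent.R48.CR

universe u

namespace Ctx

variable {V ι : Type u} [LinearOrder ι] [WellFoundedLT ι]

/-- union of a chain -/
noncomputable def chain (st : Ordinal.{u} → Set V → Set V) : Ordinal.{u} → Set V :=
  WellFounded.fix Ordinal.lt_wf (fun γ rec => ⋃ δ, ⋃ (h : δ < γ), st δ (rec δ h))

lemma chain_eq (st : Ordinal.{u} → Set V → Set V) (γ : Ordinal.{u}) :
    chain st γ = ⋃ δ, ⋃ (_ : δ < γ), st δ (chain st δ) := by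
  unfold chain
  rw [WellFounded.fix_eq]

lemma exists_min_phi (X : Ctx V ι) (Q : Set (Sym2 V)) (a : V) :
    ∃ Z, X.Phi Q Z a ∧ ∀ Z', X.Phi Q Z' a → #Z ≤ #Z' := by
  have hne : {κ : Cardinal.{u} | ∃ Z : Set V, #Z = κ ∧ X.Phi Q Z a}.Nonempty :=
    ⟨_, Set.univ, rfl, fun n _ h => absurd (Set.mem_univ n) h⟩
  obtain ⟨κ, ⟨Z, rfl, hZ⟩, hmin⟩ := WellFounded.has_min Cardinal.lt_wf _ hne
  exact ⟨Z, hZ, fun Z' hZ' => not_lt.1 (hmin _ ⟨Z', rfl, hZ'⟩)⟩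

noncomputable def Zm (X : Ctx V ι) (Q : Set (Sym2 V)) (a : V) : Set V := (X.exists_min_phi Q a).choose

lemma Zm_phi (X : Ctx V ι) (Q : Set (Sym2 V)) (a : V) : X.Phi Q (X.Zm Q a) a :=
  (X.exists_min_phi Q a).choose_spec.1

lemma Zm_min (X : Ctx V ι) (Q : Set (Sym2 V)) (a : V) : ∀ Z', X.Phi Q Z' a → #(X.Zm Q a) ≤ #Z' :=
  (X.exists_min_phi Q a).choose_spec.2

/-- the closure function at stage `δ` -/
noncomputable def ff (X : Ctx V ι) (Q : Set (Sym2 V)) (f : Finset V → Set V) (δ : Ordinal.{u})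
    (S : Set V) (s : Finset V) : Set V :=
  (S ∪ trunc (f s) (max δ ω)) ∪ ((⋃ q ∈ ((s : Set V) ×ˢ (s : Set V)), trunc (X.Y Q q.1 q.2) (max δ ω)) ∪
    ⋃ a ∈ (s : Set V), trunc (X.Zm Q a) (max δ ω))

lemma ff_card (X : Ctx V ι) (Q : Set (Sym2 V)) (f : Finset V → Set V) (δ : Ordinal.{u})
    (S : Set V) (hS : #S ≤ bt δ) (s : Finset V) : #(X.ff Q f δ S s) ≤ bt δ := by
  have hb := bt_inf δ
  unfold ff
  refine card_union_le hb (card_union_le hb hS ((trunc_card _ _).trans (bt_card δ))) ?_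
  refine card_union_le hb ?_ ?_
  · exact card_biUnion_fin hb (s.finite_toSet.prod s.finite_toSet)
      (fun q _ => (trunc_card _ _).trans (bt_card δ))
  · exact card_biUnion_fin hb s.finite_toSet (fun q _ => (trunc_card _ _).trans (bt_card δ))

theorem step_thm (X : Ctx V ι) (lam : Cardinal.{u}) (hlam : ℵ₀ < lam)
    (ih : ∀ μ, ℵ₀ ≤ μ → μ < lam → X.SS μ) : X.SS lam := by
  classical
  intro Q hI f hf
  have hbt : ∀ δ, δ < lam.ord → bt δ < lam := fun δ hδ => max_lt (Cardinal.lt_ord.1 hδ) hlam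
  have hex : ∀ (δ : Ordinal.{u}) (S : Set V), ∃ (A : Set V) (ρ : ι → Ordinal.{u})
      (T : ι → List (List V)), δ < lam.ord → #S ≤ bt δ → X.Inv (bt δ) (Q ∪ sq S) →
      (#A ≤ bt δ ∧ (∀ s : Finset V, (s : Set V) ⊆ A → X.ff Q f δ S s ⊆ A) ∧ X.P1 A ∧
        X.Proc A (Q ∪ sq S) ρ T) := by
    intro δ S
    by_cases h : δ < lam.ord ∧ #S ≤ bt δ ∧ X.Inv (bt δ) (Q ∪ sq S)
    · obtain ⟨A, h1, h2, h3, ρ, T, h4⟩ := ih (bt δ) (bt_inf δ) (hbt δ h.1) (Q ∪ sq S) h.2.2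
        (X.ff Q f δ S) (X.ff_card Q f δ S h.2.1)
      exact ⟨A, ρ, T, fun _ _ _ => ⟨h1, h2, h3, h4⟩⟩
    · exact ⟨∅, fun _ => 0, fun _ => [], fun h1 h2 h3 => absurd ⟨h1, h2, h3⟩ h⟩
  choose st ρs Ts hst using hex
  set A : Ordinal.{u} → Set V := chain st with hAdef
  set St : Ordinal.{u} → Set V := fun δ => st δ (A δ) with hStdef
  have hAeq : ∀ γ, A γ = ⋃ δ, ⋃ (_ : δ < γ), St δ := fun γ => chain_eq st γ
  have hmemA : ∀ γ x, x ∈ A γ ↔ ∃ δ, δ < γ ∧ x ∈ St δ := by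
    intro γ x
    rw [hAeq]
    simp only [Set.mem_iUnion, exists_prop]
  -- good stages
  have hgood : ∀ δ, δ < lam.ord → X.Closed (bt δ) Q (A δ) →
      (#(St δ) ≤ bt δ ∧ (∀ s : Finset V, (s : Set V) ⊆ St δ → X.ff Q f δ (A δ) s ⊆ St δ) ∧
        X.P1 (St δ) ∧ X.Proc (St δ) (Q ∪ sq (A δ)) (ρs δ (A δ)) (Ts δ (A δ))) := by
    intro δ hδ hcl
    exact hst δ (A δ) hδ hcl.card (lemA (bt_inf δ) (hI.mono (hbt δ hδ).le) hcl)
  have hsub : ∀ δ, δ < lam.ord → X.Closed (bt δ) Q (A δ) → A δ ⊆ St δ := by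
    intro δ hδ hcl
    have := (hgood δ hδ hcl).2.1 ∅ (by simp)
    refine Set.Subset.trans ?_ this
    intro x hx
    exact Or.inl (Or.inl hx)
  have main : ∀ γ, γ ≤ lam.ord → X.Closed (bt γ) Q (A γ) := by
    intro γ
    induction γ using WellFoundedLT.induction with
    | ind γ IH =>
    intro hγ
    have hcl : ∀ δ < γ, X.Closed (bt δ) Q (A δ) := fun δ hδ => IH δ hδ (hδ.le.trans hγ)
    have hlt : ∀ δ < γ, δ < lam.ord := fun δ hδ => hδ.trans_le hγ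
    have hmono : ∀ δ δ', δ ≤ δ' → δ' < γ → St δ ⊆ St δ' := by
      intro δ δ' h h'
      rcases h.lt_or_eq with h | rfl
      · refine Set.Subset.trans ?_ (hsub δ' (hlt δ' h') (hcl δ' h'))
        intro x hx
        exact (hmemA _ _).2 ⟨δ, h, hx⟩
      · exact Set.Subset.rfl
    have hclose : ∀ δ < γ, ∀ s : Finset V, (s : Set V) ⊆ St δ → X.ff Q f δ (A δ) s ⊆ St δ :=
      fun δ hδ => (hgood δ (hlt δ hδ) (hcl δ hδ)).2.1
    refine ⟨?_, ?_, ?_, ?_⟩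
    · rw [hAeq]
      exact card_iUnion_lt (bt_inf γ) (le_max_left _ _)
        (fun δ hδ => (hgood δ (hlt δ hδ) (hcl δ hδ)).1.trans (bt_mono hδ.le))
    · rintro i e ⟨p, hp, rfl⟩ he x hx
      obtain ⟨h1, h2⟩ := mem_sq.1 he
      obtain ⟨δ1, hδ1, h1⟩ := (hmemA _ _).1 h1
      obtain ⟨δ2, hδ2, h2⟩ := (hmemA _ _).1 h2
      have hm : max δ1 δ2 < γ := max_lt hδ1 hδ2
      have h3 := (hgood _ (hlt _ hm) (hcl _ hm)).2.2.1 i _ ⟨p, hp, rfl⟩ (mem_sq.2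
        ⟨hmono _ _ (le_max_left _ _) hm h1, hmono _ _ (le_max_right _ _) hm h2⟩) x hx
      exact (hmemA _ _).2 ⟨_, hm, h3⟩
    · intro n hn p hp hY x hx
      obtain ⟨δ1, hδ1, h1⟩ := (hmemA _ _).1 hn
      obtain ⟨δ2, hδ2, h2⟩ := (hmemA _ _).1 hp
      have hm : max δ1 δ2 < γ := max_lt hδ1 hδ2
      obtain ⟨δ, hd1, hd2, hd3⟩ := stage hm
        ((idx_lt _ x hx).trans_le (Cardinal.ord_le_ord.2 hY))
      have h1' := hmono _ _ ((le_max_left _ _).trans hd1) hd2 h1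
      have h2' := hmono _ _ ((le_max_right _ _).trans hd1) hd2 h2
      refine (hmemA _ _).2 ⟨δ, hd2, ?_⟩
      apply hclose δ hd2 {n, p}
      · intro y hy
        simp only [Finset.coe_insert, Finset.coe_singleton, Set.mem_insert_iff,
          Set.mem_singleton_iff] at hy
        rcases hy with rfl | rfl
        · exact h1'
        · exact h2'
      · right
        left
        simp only [Set.mem_iUnion]
        exact ⟨(n, p), ⟨by simp, by simp⟩, hx, hd3⟩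
    · intro a ha Z hZ hPhi
      refine ⟨X.Zm Q a, ?_, X.Zm_phi Q a⟩
      intro x hx
      obtain ⟨δ0, hδ0, h0⟩ := (hmemA _ _).1 ha
      obtain ⟨δ, hd1, hd2, hd3⟩ := stage hδ0
        ((idx_lt _ x hx).trans_le (Cardinal.ord_le_ord.2 ((X.Zm_min Q a Z hPhi).trans hZ)))
      refine (hmemA _ _).2 ⟨δ, hd2, ?_⟩
      apply hclose δ hd2 {a}
      · intro y hy
        simp only [Finset.coe_singleton, Set.mem_singleton_iff] at hy
        rw [hy]
        exact hmono _ _ hd1 hd2 h0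
      · right
        right
        simp only [Set.mem_iUnion]
        exact ⟨a, by simp, hx, hd3⟩
  have hcl : ∀ δ < lam.ord, X.Closed (bt δ) Q (A δ) := fun δ hδ => main δ hδ.le
  have hmono : ∀ δ δ', δ ≤ δ' → δ' < lam.ord → St δ ⊆ St δ' := by
    intro δ δ' h h'
    rcases h.lt_or_eq with h | rfl
    · refine Set.Subset.trans ?_ (hsub δ' h' (hcl δ' h'))
      intro x hx
      exact (hmemA _ _).2 ⟨δ, h, hx⟩
    · exact Set.Subset.rfl
  have hSA : ∀ δ γ, δ < γ → St δ ⊆ A γ := fun δ γ h x hx => (hmemA _ _).2 ⟨δ, h, hx⟩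
  have hlast := main lam.ord le_rfl
  have hbl : bt lam.ord = lam := by
    unfold bt
    rw [Cardinal.card_ord]
    exact max_eq_left hlam.le
  rw [hbl] at hlast
  have h0 : (0 : Ordinal.{u}) < lam.ord := by
    rw [Cardinal.lt_ord]
    simp only [Ordinal.card_zero]
    exact Cardinal.aleph0_pos.trans hlam
  -- finite subsets of A lam.ord
  have hfinsub : ∀ s : Set V, s.Finite → s ⊆ A lam.ord → ∃ δ < lam.ord, s ⊆ St δ := by
    intro s hs
    induction s, hs using Set.Finite.induction_on with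
    | empty => exact fun _ => ⟨0, h0, Set.empty_subset _⟩
    | insert _ _ ih =>
      intro h
      rw [Set.insert_subset_iff] at h
      obtain ⟨δ1, h1, h2⟩ := ih h.2
      obtain ⟨δ2, h3, h4⟩ := (hmemA _ _).1 h.1
      refine ⟨max δ1 δ2, max_lt h1 h3, ?_⟩
      rw [Set.insert_subset_iff]
      exact ⟨hmono _ _ (le_max_right _ _) (max_lt h1 h3) h4,
        h2.trans (hmono _ _ (le_max_left _ _) (max_lt h1 h3))⟩
  have hclf : ∀ s : Finset V, (s : Set V) ⊆ A lam.ord → f s ⊆ A lam.ord := by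
    intro s hs x hx
    obtain ⟨δ0, hδ0, h1⟩ := hfinsub _ s.finite_toSet hs
    obtain ⟨δ, hd1, hd2, hd3⟩ := stage (γ := lam.ord) hδ0
      ((idx_lt _ x hx).trans_le (by rw [hbl]; exact Cardinal.ord_le_ord.2 (hf s)))
    refine hSA δ _ hd2 ?_
    apply (hgood δ hd2 (hcl δ hd2)).2.1 s (h1.trans (hmono _ _ hd1 hd2))
    exact Or.inl (Or.inr ⟨hx, hd3⟩)
  -- pieces
  have hpiece : ∀ (e : Sym2 V) (γ δ : Ordinal.{u}), e ∈ sq (St γ) → e ∉ sq (A γ) →
      e ∈ sq (St δ) → e ∉ sq (A δ) → γ = δ := by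
    intro e γ δ h1 h2 h3 h4
    rcases lt_trichotomy γ δ with h | h | h
    · exact absurd (fun x hx => hSA γ δ h (h1 x hx)) h4
    · exact h
    · exact absurd (fun x hx => hSA δ γ h (h3 x hx)) h2
  let gi : ι → Ordinal.{u} := fun i => sInf {γ | ∀ x ∈ X.C i, x ∈ St γ}
  have hgne : ∀ i ∈ X.J (A lam.ord) Q, ∃ δ < lam.ord, δ ∈ {γ | ∀ x ∈ X.C i, x ∈ St γ} := by
    intro i hi
    obtain ⟨δ, h1, h2⟩ := hfinsub {x | x ∈ X.C i} (List.finite_toSet _) (fun x hx => hi.1 x hx)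
    exact ⟨δ, h1, fun x hx => h2 hx⟩
  have hgi1 : ∀ i ∈ X.J (A lam.ord) Q, ∀ x ∈ X.C i, x ∈ St (gi i) := by
    intro i hi
    obtain ⟨δ, h1, h2⟩ := hgne i hi
    exact csInf_mem (s := {γ | ∀ x ∈ X.C i, x ∈ St γ}) ⟨δ, h2⟩
  have hgi2 : ∀ i ∈ X.J (A lam.ord) Q, gi i < lam.ord := by
    intro i hi
    obtain ⟨δ, h1, h2⟩ := hgne i hi
    exact (csInf_le' h2).trans_lt h1
  have hgi3 : ∀ i ∈ X.J (A lam.ord) Q, ∀ e ∈ E (X.C i), e ∉ sq (A (gi i)) := by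
    rintro i hi e ⟨p, hp, rfl⟩ he
    obtain ⟨h1, h2⟩ := mem_sq.1 he
    obtain ⟨δ1, hδ1, h1⟩ := (hmemA _ _).1 h1
    obtain ⟨δ2, hδ2, h2⟩ := (hmemA _ _).1 h2
    have hm : max δ1 δ2 < gi i := max_lt hδ1 hδ2
    have hm' := hm.trans (hgi2 i hi)
    have h3 := (hgood _ hm' (hcl _ hm')).2.2.1 i _ ⟨p, hp, rfl⟩ (mem_sq.2
      ⟨hmono _ _ (le_max_left _ _) hm' h1, hmono _ _ (le_max_right _ _) hm' h2⟩)
    have h4 : gi i ≤ max δ1 δ2 := csInf_le' h3
    exact absurd hm (not_lt.2 h4)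
  have hgiJ : ∀ i ∈ X.J (A lam.ord) Q, i ∈ X.J (St (gi i)) (Q ∪ sq (A (gi i))) := by
    intro i hi
    refine ⟨hgi1 i hi, fun e he => ?_⟩
    rintro (h | h)
    · exact hi.2 e he h
    · exact hgi3 i hi e he h
  have hsqSt : ∀ i ∈ X.J (A lam.ord) Q, ∀ e ∈ E (X.C i), e ∈ sq (St (gi i)) :=
    fun i hi e he x hx => hgi1 i hi x (mem_of_E he hx)
  have hJgi : ∀ γ < lam.ord, ∀ i ∈ X.J (St γ) (Q ∪ sq (A γ)),
      i ∈ X.J (A lam.ord) Q ∧ gi i = γ := by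
    intro γ hγ i hi
    have h1 : i ∈ X.J (A lam.ord) Q :=
      ⟨fun x hx => hSA γ _ hγ (hi.1 x hx), fun e he hQ => hi.2 e he (Or.inl hQ)⟩
    refine ⟨h1, ?_⟩
    obtain ⟨e, he⟩ := X.E_nonempty i
    exact hpiece e _ _ (hsqSt i h1 e he) (hgi3 i h1 e he) (fun x hx => hi.1 x (mem_of_E he hx))
      (fun h => hi.2 e he (Or.inr h))
  have hgishare : ∀ i ∈ X.J (A lam.ord) Q, ∀ j ∈ X.J (A lam.ord) Q, ∀ e, e ∈ E (X.C i) →
      e ∈ E (X.C j) → gi i = gi j := fun i hi j hj e h1 h2 =>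
    hpiece e _ _ (hsqSt i hi e h1) (hgi3 i hi e h1) (hsqSt j hj e h2) (hgi3 j hj e h2)
  have hproc : ∀ γ < lam.ord, X.Proc (St γ) (Q ∪ sq (A γ)) (ρs γ (A γ)) (Ts γ (A γ)) :=
    fun γ hγ => (hgood γ hγ (hcl γ hγ)).2.2.2
  obtain ⟨ρ, hρ⟩ := lexpair gi (fun i => ρs (gi i) (A (gi i)) i)
  refine ⟨A lam.ord, hlast.card, hclf, hlast.p1, ρ, fun i => Ts (gi i) (A (gi i)) i, ?_⟩
  refine ⟨?_, ?_, ?_, ?_, ?_, ?_⟩
  · intro i hi j hj hij
    have h1 : ¬ ρ i < ρ j := by rw [hij]; exact lt_irrefl _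
    have h2 : ¬ ρ j < ρ i := by rw [hij]; exact lt_irrefl _
    rw [hρ] at h1 h2
    push Not at h1 h2
    have hg : gi i = gi j := le_antisymm h2.1 h1.1
    have h3 := h1.2 hg
    have h4 := h2.2 hg.symm
    have h5 : ρs (gi i) (A (gi i)) i = ρs (gi i) (A (gi i)) j := by
      rw [← hg] at h3 h4
      exact le_antisymm h4 h3
    have hj' := hgiJ j hj
    rw [← hg] at hj'
    exact (hproc _ (hgi2 i hi)).inj i (hgiJ i hi) j hj' h5
  · rintro i hi j hj hij ⟨e, h1, h2⟩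
    have hg : gi i = gi j := hgishare i hi j hj e h1 h2
    rw [hρ]
    right
    refine ⟨hg, ?_⟩
    have hj' := hgiJ j hj
    rw [← hg] at hj' ⊢
    exact (hproc _ (hgi2 i hi)).compat i (hgiJ i hi) j hj' hij ⟨e, h1, h2⟩
  · intro i hi e he
    obtain ⟨h1, h2⟩ := (hproc _ (hgi2 i hi)).t1 i (hgiJ i hi) e he
    exact ⟨fun x hx => hSA _ _ (hgi2 i hi) (h1 x hx), fun h => h2 (Or.inl h)⟩
  · intro e
    by_cases hne : ∃ i, i ∈ X.J (A lam.ord) Q ∧ e ∈ used (Ts (gi i) (A (gi i)) i)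
    · obtain ⟨i0, hi0, he0⟩ := hne
      have hp0 := (hproc _ (hgi2 i0 hi0)).t1 i0 (hgiJ i0 hi0) e he0
      refine ((hproc _ (hgi2 i0 hi0)).t2 e).subset ?_
      rintro i ⟨hi, he⟩
      have hp := (hproc _ (hgi2 i hi)).t1 i (hgiJ i hi) e he
      have hg : gi i = gi i0 := hpiece e _ _ hp.1 (fun h => hp.2 (Or.inr h)) hp0.1
        (fun h => hp0.2 (Or.inr h))
      have hi' := hgiJ i hi
      rw [hg] at hi' he
      exact ⟨hi', he⟩
    · have : {i | i ∈ X.J (A lam.ord) Q ∧ e ∈ used (Ts (gi i) (A (gi i)) i)} = ∅ := by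
        ext i
        simp only [Set.mem_ofPred_eq, Set.mem_empty_iff_false, iff_false]
        intro h
        exact hne ⟨i, h⟩
      rw [this]
      exact Set.finite_empty
  · intro i hi
    exact (hproc _ (hgi2 i hi)).pr i (hgiJ i hi)
  · intro i hi G hG
    refine (hproc _ (hgi2 i hi)).t3 i (hgiJ i hi) G ?_
    intro e he1 he2
    have he3 : e ∈ sq (A lam.ord) := fun x hx => hSA _ _ (hgi2 i hi) (he1 x hx)
    rw [hG e he3 (fun h => he2 (Or.inl h))]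
    have : {j | j ∈ X.J (A lam.ord) Q ∧ ρ j < ρ i ∧ e ∈ E (X.C j)} =
        {j | j ∈ X.J (St (gi i)) (Q ∪ sq (A (gi i))) ∧
          ρs (gi i) (A (gi i)) j < ρs (gi i) (A (gi i)) i ∧ e ∈ E (X.C j)} := by
      ext j
      simp only [Set.mem_ofPred_eq]
      constructor
      · rintro ⟨h1, h2, h3⟩
        have hg : gi j = gi i := hpiece e _ _ (hsqSt j h1 e h3) (hgi3 j h1 e h3) he1
          (fun h => he2 (Or.inr h))
        have hj' := hgiJ j h1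
        rw [hρ] at h2
        rcases h2 with h2 | ⟨_, h2⟩
        · exact absurd h2 (by rw [hg]; exact lt_irrefl _)
        · rw [hg] at hj' h2
          exact ⟨hj', h2, h3⟩
      · rintro ⟨h1, h2, h3⟩
        obtain ⟨h4, hg⟩ := hJgi _ (hgi2 i hi) j h1
        refine ⟨h4, ?_, h3⟩
        rw [hρ]
        right
        rw [hg]
        exact ⟨rfl, h2⟩
    rw [this]

theorem SS_all (X : Ctx V ι) (lam : Cardinal.{u}) (hlam : ℵ₀ ≤ lam) : X.SS lam := by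
  induction lam using WellFoundedLT.induction with
  | ind lam ih =>
  rcases hlam.lt_or_eq with h | h
  · exact X.step_thm lam h (fun μ h1 h2 => ih μ h2 h1)
  · rw [← h]; exact X.base

theorem proc_univ (X : Ctx V ι) : ∃ ρ T, X.Proc Set.univ ∅ ρ T := by
  have hI : X.Inv (max #V ℵ₀) ∅ := by
    refine ⟨fun i e _ e' _ h => absurd h (Set.notMem_empty _), ?_, ?_⟩
    · rintro i _ ⟨x, _, e, he, _⟩
      exact absurd he (Set.notMem_empty _)
    · intro n z p h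
      exact absurd h (Set.notMem_empty _)
  obtain ⟨A, _, h2, _, ρ, T, h4⟩ := X.SS_all (max #V ℵ₀) (le_max_right _ _) ∅ hI
    (fun _ => Set.univ) (fun _ => by rw [Cardinal.mk_univ]; exact le_max_left _ _)
  have hA : A = Set.univ := Set.univ_subset_iff.1 (h2 ∅ (by simp))
  rw [hA] at h4
  exact ⟨ρ, T, h4⟩

end Ctx

end Pool.Agent.R48.CR
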