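import Pool.Agent.R48.CR.Gg

open Set Cardinal Ordinal

namespace Pool.Agent.R48.CR

universe u

variable {V : Type u}

lemma valid_get {S : V → V → Prop} (hS : Tour S) {T : List (List V)} (h : valid S T) (a : ℕ)
    (ha : a < T.length) : IsDCycle (fl S (par (T.take a))) T[a] ∧ T[a].length = 3 := by
  have h1 : T = T.take a ++ T.drop a := (List.take_append_drop a T).symm
  rw [h1, valid_append hS.1] at h
  have h2 := h.2
  rw [List.drop_eq_getElem_cons ha] at h2
  exact h2.1

lemma symmDiff_mem {F G : Set (Sym2 V)} {e : Sym2 V} : e ∈ symmDiff F G ↔ (e ∈ F ↔ e ∉ G) := by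
  rw [Set.mem_symmDiff]; tauto

lemma cnt_take (T : List (List V)) (e : Sym2 V) (a : ℕ) (ha : a ≤ T.length) :
    Odd (Set.ncard {b : Fin T.length | (b : ℕ) < a ∧ e ∈ E (T.get b)}) ↔ e ∈ par (T.take a) := by
  induction a with
  | zero => simp [par]
  | succ a ih =>
    have ha' : a < T.length := ha
    have ih := ih ha'.le
    rw [← List.take_append_getElem ha', par_append, symmDiff_mem, ← ih]
    have hpar : par [T[a]] = E T[a] := by
      simp only [par]
      rw [← Set.bot_eq_empty, symmDiff_bot]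
    rw [hpar]
    by_cases he : e ∈ E T[a]
    · have : {b : Fin T.length | (b : ℕ) < a + 1 ∧ e ∈ E (T.get b)} =
          insert ⟨a, ha'⟩ {b : Fin T.length | (b : ℕ) < a ∧ e ∈ E (T.get b)} := by
        ext b
        simp only [Set.mem_insert_iff, Set.mem_ofPred_eq]
        constructor
        · rintro ⟨h1, h2⟩
          rcases Nat.lt_succ_iff_lt_or_eq.1 h1 with h | h
          · exact Or.inr ⟨h, h2⟩
          · left; exact Fin.ext h
        · rintro (h | ⟨h1, h2⟩)
          · subst h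
            exact ⟨Nat.lt_succ_self _, he⟩
          · exact ⟨Nat.lt_succ_of_lt h1, h2⟩
      rw [this, Set.ncard_insert_of_notMem _ (Set.toFinite _), Nat.odd_add_one]
      · simp [he]
      · simp
    · have : {b : Fin T.length | (b : ℕ) < a + 1 ∧ e ∈ E (T.get b)} =
          {b : Fin T.length | (b : ℕ) < a ∧ e ∈ E (T.get b)} := by
        ext b
        simp only [Set.mem_ofPred_eq]
        constructor
        · rintro ⟨h1, h2⟩
          rcases Nat.lt_succ_iff_lt_or_eq.1 h1 with h | h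
          · exact ⟨h, h2⟩
          · exfalso
            apply he
            have : T.get b = T[a] := by
              simp only [List.get_eq_getElem, h]
            rw [← this]; exact h2
        · rintro ⟨h1, h2⟩
          exact ⟨Nat.lt_succ_of_lt h1, h2⟩
      rw [this]
      simp [he]

lemma cnt_full (T : List (List V)) (e : Sym2 V) :
    Odd (Set.ncard {b : Fin T.length | e ∈ E (T.get b)}) ↔ e ∈ par T := by
  have h := cnt_take T e T.length le_rfl
  rw [List.take_length] at h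
  rw [← h]
  have : {b : Fin T.length | e ∈ E (T.get b)} =
      {b : Fin T.length | (b : ℕ) < T.length ∧ e ∈ E (T.get b)} := by
    ext b
    simp
  rw [this]

/-- index type of the concatenation -/
structure Kap {ι : Type u} (T : ι → List (List V)) : Type u where
  i : ι
  b : Fin (T i).length

def toKap {ι : Type u} (T : ι → List (List V)) : (Σ i, Fin (T i).length) ↪ Kap T where
  toFun x := ⟨x.1, x.2⟩
  inj' := by
    rintro ⟨i, a⟩ ⟨j, b⟩ h
    simp only [Kap.mk.injEq] at h
    obtain ⟨rfl, h⟩ := h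
    rw [eq_of_heq h]

/-- blocks -/
lemma cnt_blocks {ι : Type u} (T : ι → List (List V)) (e : Sym2 V)
    (hfin : {i | e ∈ used (T i)}.Finite) (I : Set ι) :
    {x : Kap T | x.i ∈ I ∧ e ∈ E ((T x.i).get x.b)}.Finite ∧
    (Odd (Set.ncard {x : Kap T | x.i ∈ I ∧ e ∈ E ((T x.i).get x.b)}) ↔
      Odd (Set.ncard {i | i ∈ I ∧ e ∈ par (T i)})) := by
  classical
  let F : Finset ι := hfin.toFinset.filter (fun i => i ∈ I)
  have hF : ∀ i, i ∈ F ↔ e ∈ used (T i) ∧ i ∈ I := by
    intro i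
    simp [F]
  let W : Finset (Σ i, Fin (T i).length) :=
    F.sigma (fun i => Finset.univ.filter (fun b : Fin (T i).length => e ∈ E ((T i).get b)))
  have hW : {x : Kap T | x.i ∈ I ∧ e ∈ E ((T x.i).get x.b)} = ↑(W.map (toKap T)) := by
    ext ⟨i, b⟩
    simp only [Set.mem_ofPred_eq, W, Finset.coe_map, Finset.coe_sigma, Set.mem_image,
      Set.mem_sigma_iff, Finset.mem_coe, hF, Finset.mem_filter, Finset.mem_univ, true_and]
    constructor
    · rintro ⟨h1, h2⟩
      exact ⟨⟨i, b⟩, ⟨⟨⟨_, List.get_mem _ _, h2⟩, h1⟩, h2⟩, rfl⟩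
    · rintro ⟨⟨j, c⟩, ⟨⟨_, h1⟩, h2⟩, h3⟩
      have h4 : (⟨j, c⟩ : Kap T) = ⟨i, b⟩ := h3
      rw [Kap.mk.injEq] at h4
      obtain ⟨rfl, h5⟩ := h4
      have h5 := eq_of_heq h5
      subst h5
      exact ⟨h1, h2⟩
  have hodd : ∀ i, Odd (Finset.univ.filter (fun b : Fin (T i).length => e ∈ E ((T i).get b))).card ↔
      e ∈ par (T i) := by
    intro i
    rw [← cnt_full, ← Set.ncard_coe_finset]
    simp
  have hpu : ∀ i, e ∈ par (T i) → e ∈ used (T i) := by
    intro i h
    have h1 := (hodd i).2 h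
    have h2 : (Finset.univ.filter (fun b : Fin (T i).length => e ∈ E ((T i).get b))).Nonempty := by
      rw [← Finset.card_pos]
      exact h1.pos
    obtain ⟨b, hb⟩ := h2
    simp only [Finset.mem_filter, Finset.mem_univ, true_and] at hb
    exact ⟨_, List.get_mem _ _, hb⟩
  rw [hW]
  refine ⟨(W.map (toKap T)).finite_toSet, ?_⟩
  rw [Set.ncard_coe_finset, Finset.card_map, Finset.card_sigma, Finset.odd_sum_iff_odd_card_odd]
  have h3 : {i | i ∈ I ∧ e ∈ par (T i)} = ↑(F.filter (fun i => Odd (Finset.univ.filter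
      (fun b : Fin (T i).length => e ∈ E ((T i).get b))).card)) := by
    ext i
    simp only [Set.mem_ofPred_eq, Finset.coe_filter, hF, hodd]
    constructor
    · rintro ⟨h1, h2⟩
      exact ⟨⟨hpu i h2, h1⟩, h2⟩
    · rintro ⟨⟨_, h1⟩, h2⟩
      exact ⟨h1, h2⟩
  rw [h3, Set.ncard_coe_finset]

/-- the concatenated sequence on an abstract well order -/
theorem concat {ι : Type u} [LinearOrder ι] [WellFoundedLT ι] (X : Ctx V ι) :
    ∃ (κ : Type u) (_ : LinearOrder κ) (_ : WellFoundedLT κ) (c : κ → List V),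
      (∀ e, {k | e ∈ E (c k)}.Finite) ∧
      (∀ k, IsDCycle (fl X.D {e | Odd (Set.ncard {j | j < k ∧ e ∈ E (c j)})}) (c k) ∧
        (c k).length = 3) ∧
      (∀ e, Odd (Set.ncard {k | e ∈ E (c k)}) ↔ Odd (Set.ncard {i | e ∈ E (X.C i)})) := by
  classical
  obtain ⟨ρ, T, hP⟩ := X.proc_univ
  have hJ : ∀ i, i ∈ X.J Set.univ ∅ := fun i =>
    ⟨fun _ _ => Set.mem_univ _, fun _ _ => Set.notMem_empty _⟩
  obtain ⟨φ, hφ⟩ := lexpair (ι := Kap T) (fun x => ρ x.i)
    (fun x => (((x.b : ℕ)) : Ordinal.{u}))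
  have hφ' : ∀ x y, φ x < φ y ↔ ρ x.i < ρ y.i ∨ (ρ x.i = ρ y.i ∧ (x.b : ℕ) < (y.b : ℕ)) := by
    intro x y
    rw [hφ]
    simp only [Nat.cast_lt]
  have hinj : Function.Injective φ := by
    rintro ⟨i, a⟩ ⟨j, b⟩ h
    have h1 := (not_congr (hφ' ⟨i, a⟩ ⟨j, b⟩)).1 (by rw [h]; exact lt_irrefl _)
    have h2 := (not_congr (hφ' ⟨j, b⟩ ⟨i, a⟩)).1 (by rw [h]; exact lt_irrefl _)
    simp only at h1 h2
    push Not at h1 h2
    have hij : i = j := hP.inj i (hJ i) j (hJ j) (le_antisymm h2.1 h1.1)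
    subst hij
    have := le_antisymm (h2.2 rfl) (h1.2 rfl)
    rw [Fin.ext this]
  let lin : LinearOrder (Kap T) := LinearOrder.lift' φ hinj
  have hlt : ∀ x y : Kap T, x < y ↔ φ x < φ y := fun x y => Iff.rfl
  have wf : WellFoundedLT (Kap T) := ⟨InvImage.wf φ Ordinal.lt_wf⟩
  have hused : ∀ e, {i | e ∈ used (T i)}.Finite := by
    intro e
    refine (hP.t2 e).subset ?_
    intro i hi
    exact ⟨hJ i, hi⟩
  refine ⟨Kap T, lin, wf, fun x => (T x.i).get x.b, ?_, ?_, ?_⟩
  · intro e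
    have := (cnt_blocks T e (hused e) Set.univ).1
    simpa using this
  · rintro ⟨i, a⟩
    set G : Set (Sym2 V) := {e | Odd (Set.ncard {j | j ∈ X.J Set.univ ∅ ∧ ρ j < ρ i ∧
      e ∈ E (X.C j)})} with hG
    have hv : valid (fl X.D G) (T i) := hP.t3 i (hJ i) G (fun e _ _ => Iff.rfl)
    have h1 := valid_get (tour_fl X.tD _) hv a.1 a.2
    rw [fl_fl] at h1
    have key : {e | Odd (Set.ncard {j : Kap T | j < ⟨i, a⟩ ∧
        e ∈ E ((T j.i).get j.b)})} = symmDiff G (par ((T i).take a.1)) := by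
      ext e
      rw [symmDiff_mem, Set.mem_ofPred_eq]
      have hb := cnt_blocks T e (hused e) {j | ρ j < ρ i}
      have hc := cnt_take (T i) e a.1 a.2.le
      have hsplit : {j : Kap T | j < ⟨i, a⟩ ∧ e ∈ E ((T j.i).get j.b)} =
          {x : Kap T | x.i ∈ {j | ρ j < ρ i} ∧ e ∈ E ((T x.i).get x.b)} ∪
          (fun b : Fin (T i).length => (⟨i, b⟩ : Kap T)) ''
            {b : Fin (T i).length | (b : ℕ) < a.1 ∧ e ∈ E ((T i).get b)} := by
        ext ⟨j, b⟩
        simp only [Set.mem_ofPred_eq, Set.mem_union, Set.mem_image, hlt, hφ']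
        constructor
        · rintro ⟨h2 | ⟨h2, h3⟩, h4⟩
          · exact Or.inl ⟨h2, h4⟩
          · right
            have hij : j = i := hP.inj j (hJ j) i (hJ i) h2
            subst hij
            exact ⟨b, ⟨h3, h4⟩, rfl⟩
        · rintro (⟨h2, h3⟩ | ⟨b', ⟨h2, h3⟩, h4⟩)
          · exact ⟨Or.inl h2, h3⟩
          · simp only [Kap.mk.injEq] at h4
            obtain ⟨rfl, h5⟩ := h4
            have h5 := eq_of_heq h5
            subst h5
            exact ⟨Or.inr ⟨rfl, h2⟩, h3⟩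
      have hdis : Disjoint
          {x : Kap T | x.i ∈ {j | ρ j < ρ i} ∧ e ∈ E ((T x.i).get x.b)}
          ((fun b : Fin (T i).length => (⟨i, b⟩ : Kap T)) ''
            {b : Fin (T i).length | (b : ℕ) < a.1 ∧ e ∈ E ((T i).get b)}) := by
        rw [Set.disjoint_left]
        rintro ⟨j, b⟩ ⟨h2, _⟩ ⟨b', _, h4⟩
        simp only [Kap.mk.injEq] at h4
        obtain ⟨rfl, _⟩ := h4
        simp only [Set.mem_ofPred_eq] at h2
        exact absurd h2 (lt_irrefl _)
      have hinj2 : Function.Injective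
          (fun b : Fin (T i).length => (⟨i, b⟩ : Kap T)) := by
        intro b b' h
        simpa using h
      rw [hsplit, Set.ncard_union_eq hdis hb.1 (Set.toFinite _),
        Set.ncard_image_of_injective _ hinj2, Nat.odd_add, hb.2, ← Nat.not_odd_iff_even, hc]
      have hset : {j | j ∈ {j | ρ j < ρ i} ∧ e ∈ par (T j)} =
          {j | j ∈ X.J Set.univ ∅ ∧ ρ j < ρ i ∧ e ∈ E (X.C j)} := by
        ext j
        simp only [Set.mem_ofPred_eq, hP.pr j (hJ j), hJ j, true_and]
      rw [hset]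
      rfl
    rw [key]
    exact h1
  · intro e
    have h := (cnt_blocks T e (hused e) Set.univ).2
    have h2 : {x : Kap T | x.i ∈ Set.univ ∧ e ∈ E ((T x.i).get x.b)} =
        {x : Kap T | e ∈ E ((T x.i).get x.b)} := by
      ext x; simp
    have h3 : {i | i ∈ Set.univ ∧ e ∈ par (T i)} = {i | e ∈ E (X.C i)} := by
      ext i
      simp [hP.pr i (hJ i)]
    rw [h2, h3] at h
    exact h

end Pool.Agent.R48.CR
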